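import Pool.Agent.W665.IDM.L1

set_option autoImplicit false

noncomputable section

namespace Pool.Agent.W665.IDM

variable {G : Type}

/-- pairing with a function -/
def pr (φ : G → ℂ) (f : L1 G) : ℂ := ∑' x, f x * φ x

lemma pr_eq_lift (φ : G → ℂ) (C : ℝ) (hφ : ∀ x, ‖φ x‖ ≤ C) (f : L1 G) :
    pr φ f = lift φ C hφ f := by
  rw [lift_apply]
  rfl

lemma pr_summable (φ : G → ℂ) (C : ℝ) (hφ : ∀ x, ‖φ x‖ ≤ C) (f : L1 G) :
    Summable (fun x => f x * φ x) := lift_summable φ C hφ f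

lemma pr_delta (φ : G → ℂ) (g : G) : pr φ (delta g) = φ g := by
  classical
  unfold pr
  rw [tsum_eq_single g]
  · rw [delta_apply, if_pos rfl, one_mul]
  · intro x hx
    rw [delta_apply, if_neg hx, zero_mul]

lemma pr_bound (φ : G → ℂ) (C : ℝ) (hφ : ∀ x, ‖φ x‖ ≤ C) (f : L1 G) : ‖pr φ f‖ ≤ C * ‖f‖ := by
  rw [pr_eq_lift φ C hφ]
  exact lift_norm_apply _ _ _ _

lemma pr_add (φ : G → ℂ) (C : ℝ) (hφ : ∀ x, ‖φ x‖ ≤ C) (f g : L1 G) :
    pr φ (f + g) = pr φ f + pr φ g := by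
  rw [pr_eq_lift φ C hφ, pr_eq_lift φ C hφ, pr_eq_lift φ C hφ, map_add]

lemma pr_smul (φ : G → ℂ) (C : ℝ) (hφ : ∀ x, ‖φ x‖ ≤ C) (c : ℂ) (f : L1 G) :
    pr φ (c • f) = c * pr φ f := by
  rw [pr_eq_lift φ C hφ, pr_eq_lift φ C hφ, map_smul, smul_eq_mul]

lemma pr_conv [Group G] (φ : G → ℂ) (C : ℝ) (hφ : ∀ x, ‖φ x‖ ≤ C) (a b : L1 G) :
    pr φ (conv a b) = pr (fun x => pr (fun y => φ (y * x)) a) b := by
  have hb : ∀ x, ‖pr (fun y => φ (y * x)) a‖ ≤ C * ‖a‖ := fun x =>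
    pr_bound _ C (fun y => hφ _) a
  rw [pr_eq_lift φ C hφ, pr_eq_lift _ (C * ‖a‖) hb]
  refine ext1_apply (T₁ := (lift φ C hφ).comp (conv a))
    (T₂ := lift (fun x => pr (fun y => φ (y * x)) a) (C * ‖a‖) hb) (fun x => ?_) b
  rw [lift_delta]
  rw [pr_eq_lift _ C (fun y => hφ _)]
  refine ext1_apply (T₁ := (lift φ C hφ).comp (conv.flip (delta x)))
    (T₂ := lift (fun y => φ (y * x)) C (fun y => hφ _)) (fun y => ?_) a
  rw [lift_delta]
  show lift φ C hφ (conv (delta y) (delta x)) = _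
  rw [conv_delta, lift_delta]

/-- duality -/
lemma norm_le_of_pr (f : L1 G) (R : ℝ)
    (h : ∀ φ : G → ℂ, (∀ x, ‖φ x‖ ≤ 1) → ‖pr φ f‖ ≤ R) : ‖f‖ ≤ R := by
  classical
  have hφ : ∀ x, ‖(if f x = 0 then 0 else (starRingEnd ℂ) (f x) / (‖f x‖ : ℂ))‖ ≤ 1 := by
    intro x
    split_ifs with h0
    · simp
    · rw [norm_div, RCLike.norm_conj, Complex.norm_real, norm_norm, div_self]
      exact norm_ne_zero_iff.2 h0
  have h1 := h _ hφ
  have h2 : pr (fun x => if f x = 0 then 0 else (starRingEnd ℂ) (f x) / (‖f x‖ : ℂ)) f =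
      ((‖f‖ : ℝ) : ℂ) := by
    unfold pr
    rw [norm_eq, Complex.ofReal_tsum]
    congr 1
    ext x
    show f x * (if f x = 0 then 0 else (starRingEnd ℂ) (f x) / (‖f x‖ : ℂ)) = ((‖f x‖ : ℝ) : ℂ)
    by_cases h0 : f x = 0
    · simp [h0]
    · rw [if_neg h0, mul_div_assoc', Complex.mul_conj, Complex.normSq_eq_norm_sq]
      have : (‖f x‖ : ℂ) ≠ 0 := by exact_mod_cast norm_ne_zero_iff.2 h0
      push_cast
      field_simp
  rw [h2, Complex.norm_real, norm_norm] at h1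
  exact h1

/-- real positive pairing -/
def er (f : L1 G) (ψ : G → ℝ) : ℝ := ∑' x, ‖f x‖ * ψ x

lemma er_summable (f : L1 G) (ψ : G → ℝ) (M : ℝ) (h : ∀ x, |ψ x| ≤ M) :
    Summable (fun x => ‖f x‖ * ψ x) := by
  apply Summable.of_norm_bounded ((sn f).mul_right M)
  intro x
  rw [norm_mul, norm_norm]
  exact mul_le_mul_of_nonneg_left (h x) (norm_nonneg _)

lemma er_mono (f : L1 G) (ψ χ : G → ℝ) (M N : ℝ) (h : ∀ x, |ψ x| ≤ M) (h' : ∀ x, |χ x| ≤ N)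
    (hle : ∀ x, ψ x ≤ χ x) : er f ψ ≤ er f χ :=
  (er_summable f ψ M h).tsum_le_tsum (fun x => mul_le_mul_of_nonneg_left (hle x) (norm_nonneg _))
    (er_summable f χ N h')

lemma er_const (f : L1 G) (c : ℝ) : er f (fun _ => c) = ‖f‖ * c := by
  unfold er
  rw [tsum_mul_right, norm_eq]

lemma er_add (f : L1 G) (ψ χ : G → ℝ) (M N : ℝ) (h : ∀ x, |ψ x| ≤ M) (h' : ∀ x, |χ x| ≤ N) :
    er f (fun x => ψ x + χ x) = er f ψ + er f χ := by
  unfold er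
  rw [← (er_summable f ψ M h).tsum_add (er_summable f χ N h')]
  congr 1
  ext x
  ring

lemma er_sub (f : L1 G) (ψ χ : G → ℝ) (M N : ℝ) (h : ∀ x, |ψ x| ≤ M) (h' : ∀ x, |χ x| ≤ N) :
    er f (fun x => ψ x - χ x) = er f ψ - er f χ := by
  unfold er
  rw [← (er_summable f ψ M h).tsum_sub (er_summable f χ N h')]
  congr 1
  ext x
  ring

lemma er_smul (f : L1 G) (c : ℝ) (ψ : G → ℝ) : er f (fun x => c * ψ x) = c * er f ψ := by
  unfold er
  rw [← tsum_mul_left]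
  congr 1
  ext x
  ring

lemma er_abs_le (f : L1 G) (ψ : G → ℝ) (M : ℝ) (h : ∀ x, |ψ x| ≤ M) : |er f ψ| ≤ ‖f‖ * M := by
  rw [abs_le]
  constructor
  · have := er_mono f (fun _ => -M) ψ |M| M (fun x => by rw [abs_neg]) h
      (fun x => (abs_le.1 (h x)).1)
    rw [er_const] at this
    linarith
  · have := er_mono f ψ (fun _ => M) M |M| h (fun x => le_refl _)
      (fun x => (abs_le.1 (h x)).2)
    rwa [er_const] at this

lemma pr_eq_er (f : L1 G) (hf : ∀ x, f x = (‖f x‖ : ℂ)) (ψ : G → ℝ) :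
    pr (fun x => (ψ x : ℂ)) f = (er f ψ : ℂ) := by
  unfold pr er
  rw [Complex.ofReal_tsum]
  congr 1
  ext x
  push_cast
  rw [← hf x]

lemma norm_pr_le_er (φ : G → ℂ) (f : L1 G) (C : ℝ) (hφ : ∀ x, ‖φ x‖ ≤ C) :
    ‖pr φ f‖ ≤ er f (fun x => ‖φ x‖) := by
  unfold pr er
  apply tsum_of_norm_bounded (er_summable f (fun x => ‖φ x‖) C (fun x => by
    rw [abs_of_nonneg (norm_nonneg _)]; exact hφ x)).hasSum
  intro x
  rw [norm_mul]

end Pool.Agent.W665.IDM
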