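import Pool.Agent.W665.IDM.Res

set_option autoImplicit false

noncomputable section

namespace Pool.Agent.W665.IDM

open Finset

variable {G : Type} [Group G]

structure IData (G : Type) [Group G] (I : Submodule ℂ (L1 G)) (d : ℕ) where
  a : Fin d → L1 G
  ψ : Fin d → (L1 G →L[ℂ] ℂ)
  hψ : ∀ k, ∀ f ∈ I, ψ k f = 0
  ha : ∀ f, f - ∑ k, ψ k f • a k ∈ I
  hdual : ∀ i k, ψ k (a i) = if i = k then 1 else 0
  hIc : IsClosed (I : Set (L1 G))
  hL : ∀ f ∈ I, ∀ b, conv b f ∈ I
  hR : ∀ f ∈ I, ∀ b, conv f b ∈ I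

variable {I : Submodule ℂ (L1 G)} {d : ℕ} (D : IData G I d)

namespace IData

def rho (g : G) (i k : Fin d) : ℂ := D.ψ k (conv (D.a i) (delta g))
def sig (g : G) (i k : Fin d) : ℂ := D.ψ k (conv (delta g) (D.a i))

def C0 : ℝ := ∑ i, ∑ k, ‖D.ψ k‖ * ‖D.a i‖

lemma le_C0 (i k : Fin d) : ‖D.ψ k‖ * ‖D.a i‖ ≤ D.C0 := by
  unfold C0
  have h1 : ‖D.ψ k‖ * ‖D.a i‖ ≤ ∑ k, ‖D.ψ k‖ * ‖D.a i‖ :=
    single_le_sum (f := fun k => ‖D.ψ k‖ * ‖D.a i‖) (fun _ _ => by positivity) (mem_univ k)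
  refine h1.trans ?_
  exact single_le_sum (f := fun i => ∑ k, ‖D.ψ k‖ * ‖D.a i‖)
    (fun _ _ => sum_nonneg (fun _ _ => by positivity)) (mem_univ i)

lemma C0_nonneg : 0 ≤ D.C0 := sum_nonneg fun _ _ => sum_nonneg fun _ _ => by positivity

lemma rho_bd (i k : Fin d) (g : G) : ‖D.rho g i k‖ ≤ D.C0 := by
  unfold rho
  refine ((D.ψ k).le_opNorm _).trans ?_
  refine (mul_le_mul_of_nonneg_left (conv_norm_le _ _) (norm_nonneg _)).trans ?_
  rw [delta_norm, mul_one]
  exact D.le_C0 i k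

lemma sig_bd (i k : Fin d) (g : G) : ‖D.sig g i k‖ ≤ D.C0 := by
  unfold sig
  refine ((D.ψ k).le_opNorm _).trans ?_
  refine (mul_le_mul_of_nonneg_left (conv_norm_le _ _) (norm_nonneg _)).trans ?_
  rw [delta_norm, one_mul]
  exact D.le_C0 i k

lemma psi_exp (k : Fin d) (f : L1 G) (T : L1 G →L[ℂ] L1 G) (hT : ∀ z ∈ I, T z ∈ I) :
    D.ψ k (T f) = ∑ j, D.ψ j f * D.ψ k (T (D.a j)) := by
  have h1 : D.ψ k (T (f - ∑ j, D.ψ j f • D.a j)) = 0 := D.hψ k _ (hT _ (D.ha f))
  rw [map_sub, map_sub, map_sum, map_sum, sub_eq_zero] at h1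
  rw [h1]
  exact sum_congr rfl fun j _ => by rw [map_smul, map_smul, smul_eq_mul]

lemma rho_mul (g h : G) (i k : Fin d) : D.rho (g * h) i k = ∑ j, D.rho g i j * D.rho h j k := by
  unfold rho
  rw [← conv_delta g h, ← conv_assoc]
  have := D.psi_exp k (conv (D.a i) (delta g)) (conv.flip (delta h)) (fun z hz => D.hR z hz _)
  exact this

lemma sig_mul (g h : G) (i k : Fin d) : D.sig (g * h) i k = ∑ j, D.sig h i j * D.sig g j k := by
  unfold sig
  rw [← conv_delta g h, conv_assoc]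
  have := D.psi_exp k (conv (delta h) (D.a i)) (conv (delta g)) (fun z hz => D.hL z hz _)
  exact this

lemma rho_one (i k : Fin d) : D.rho 1 i k = if i = k then 1 else 0 := by
  unfold rho
  rw [conv_one, D.hdual]

lemma sig_one (i k : Fin d) : D.sig 1 i k = if i = k then 1 else 0 := by
  unfold sig
  rw [one_conv, D.hdual]

/-- multiplication by `g ↦ rho g⁻¹ p i` -/
def mr (p i : Fin d) : L1 G →L[ℂ] L1 G := mulB (fun g => D.rho g⁻¹ p i) D.C0 (fun _ => D.rho_bd _ _ _)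
def ms (l j : Fin d) : L1 G →L[ℂ] L1 G := mulB (fun g => D.sig g⁻¹ l j) D.C0 (fun _ => D.sig_bd _ _ _)
def mr' (p i : Fin d) : L1 G →L[ℂ] L1 G := mulB (fun g => D.rho g p i) D.C0 (fun _ => D.rho_bd _ _ _)

lemma mr_delta (p i : Fin d) (g : G) : D.mr p i (delta g) = D.rho g⁻¹ p i • delta g :=
  mulB_delta _ _ _ g
lemma ms_delta (l j : Fin d) (g : G) : D.ms l j (delta g) = D.sig g⁻¹ l j • delta g :=
  mulB_delta _ _ _ g
lemma mr'_delta (p i : Fin d) (g : G) : D.mr' p i (delta g) = D.rho g p i • delta g :=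
  mulB_delta _ _ _ g

lemma mulB_norm_apply (u : G → ℂ) (C : ℝ) (hu : ∀ g, ‖u g‖ ≤ C) (f : L1 G) :
    ‖mulB u C hu f‖ ≤ C * ‖f‖ := lift_norm_apply _ _ _ _

lemma mr_norm (p i : Fin d) (f : L1 G) : ‖D.mr p i f‖ ≤ D.C0 * ‖f‖ := mulB_norm_apply _ _ _ _
lemma ms_norm (p i : Fin d) (f : L1 G) : ‖D.ms p i f‖ ≤ D.C0 * ‖f‖ := mulB_norm_apply _ _ _ _

abbrev EE (G : Type) (d : ℕ) := Fin d → Fin d → L1 G

def pj (p j : Fin d) : EE G d →L[ℂ] L1 G :=
  (ContinuousLinearMap.proj (R := ℂ) (φ := fun _ : Fin d => L1 G) j).comp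
    (ContinuousLinearMap.proj (R := ℂ) (φ := fun _ : Fin d => (Fin d → L1 G)) p)

lemma pj_apply (p j : Fin d) (F : EE G d) : pj p j F = F p j := rfl

def P (s : L1 G) : EE G d →L[ℂ] EE G d :=
  ContinuousLinearMap.pi fun i => ContinuousLinearMap.pi fun j =>
    ∑ p, (conv (D.mr p i s)).comp (pj p j)

def Q (s : L1 G) : EE G d →L[ℂ] EE G d :=
  ContinuousLinearMap.pi fun i => ContinuousLinearMap.pi fun j =>
    ∑ l, (conv.flip (D.ms l j s)).comp (pj i l)

lemma P_apply (s : L1 G) (F : EE G d) (i j : Fin d) :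
    D.P s F i j = ∑ p, conv (D.mr p i s) (F p j) := by
  show (∑ p, (conv (D.mr p i s)).comp (pj p j)) F = _
  rw [_root_.sum_apply]
  rfl

lemma Q_apply (s : L1 G) (F : EE G d) (i j : Fin d) :
    D.Q s F i j = ∑ l, conv (F i l) (D.ms l j s) := by
  show (∑ l, (conv.flip (D.ms l j s)).comp (pj i l)) F = _
  rw [_root_.sum_apply]
  rfl

/-- `P` and `Q` as continuous linear functions of `s` -/
def PF (F : EE G d) : L1 G →L[ℂ] EE G d :=
  ContinuousLinearMap.pi fun i => ContinuousLinearMap.pi fun j =>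
    ∑ p, (conv.flip (F p j)).comp (D.mr p i)

def QF (F : EE G d) : L1 G →L[ℂ] EE G d :=
  ContinuousLinearMap.pi fun i => ContinuousLinearMap.pi fun j =>
    ∑ l, (conv (F i l)).comp (D.ms l j)

lemma PF_eq (s : L1 G) (F : EE G d) : D.PF F s = D.P s F := by
  ext1 i
  ext1 j
  rw [P_apply]
  show (∑ p, (conv.flip (F p j)).comp (D.mr p i)) s = _
  rw [_root_.sum_apply]
  rfl

lemma QF_eq (s : L1 G) (F : EE G d) : D.QF F s = D.Q s F := by
  ext1 i
  ext1 j
  rw [Q_apply]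
  show (∑ l, (conv (F i l)).comp (D.ms l j)) s = _
  rw [_root_.sum_apply]
  rfl

def C1 : ℝ := d * D.C0

lemma C1_nonneg : 0 ≤ D.C1 := mul_nonneg (Nat.cast_nonneg _) D.C0_nonneg

lemma apply_norm_le (F : EE G d) (i j : Fin d) : ‖F i j‖ ≤ ‖F‖ :=
  (norm_le_pi_norm (F i) j).trans (norm_le_pi_norm F i)

lemma P_norm (s : L1 G) : ‖D.P s‖ ≤ D.C1 * ‖s‖ := by
  apply ContinuousLinearMap.opNorm_le_bound _ (mul_nonneg D.C1_nonneg (norm_nonneg _))
  intro F
  have h0 : 0 ≤ D.C1 * ‖s‖ * ‖F‖ :=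
    mul_nonneg (mul_nonneg D.C1_nonneg (norm_nonneg _)) (norm_nonneg _)
  rw [pi_norm_le_iff_of_nonneg h0]
  intro i
  rw [pi_norm_le_iff_of_nonneg h0]
  intro j
  rw [P_apply]
  refine (norm_sum_le _ _).trans ?_
  have h1 : ∀ p ∈ (univ : Finset (Fin d)), ‖conv (D.mr p i s) (F p j)‖ ≤ D.C0 * ‖s‖ * ‖F‖ := by
    intro p _
    refine (conv_norm_le _ _).trans ?_
    exact mul_le_mul (D.mr_norm p i s) (apply_norm_le F p j) (norm_nonneg _)
      (mul_nonneg D.C0_nonneg (norm_nonneg _))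
  refine (sum_le_sum h1).trans (le_of_eq ?_)
  rw [sum_const, card_univ, Fintype.card_fin, nsmul_eq_mul]
  unfold C1
  ring

lemma Q_norm (s : L1 G) : ‖D.Q s‖ ≤ D.C1 * ‖s‖ := by
  apply ContinuousLinearMap.opNorm_le_bound _ (mul_nonneg D.C1_nonneg (norm_nonneg _))
  intro F
  have h0 : 0 ≤ D.C1 * ‖s‖ * ‖F‖ :=
    mul_nonneg (mul_nonneg D.C1_nonneg (norm_nonneg _)) (norm_nonneg _)
  rw [pi_norm_le_iff_of_nonneg h0]
  intro i
  rw [pi_norm_le_iff_of_nonneg h0]
  intro j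
  rw [Q_apply]
  refine (norm_sum_le _ _).trans ?_
  have h1 : ∀ l ∈ (univ : Finset (Fin d)), ‖conv (F i l) (D.ms l j s)‖ ≤ D.C0 * ‖s‖ * ‖F‖ := by
    intro l _
    refine (conv_norm_le _ _).trans ?_
    rw [mul_comm]
    exact mul_le_mul (D.ms_norm l j s) (apply_norm_le F i l) (norm_nonneg _)
      (mul_nonneg D.C0_nonneg (norm_nonneg _))
  refine (sum_le_sum h1).trans (le_of_eq ?_)
  rw [sum_const, card_univ, Fintype.card_fin, nsmul_eq_mul]
  unfold C1
  ring

lemma P_one (F : EE G d) : D.P (delta 1) F = F := by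
  ext1 i
  ext1 j
  rw [P_apply]
  rw [sum_eq_single i]
  · rw [mr_delta, inv_one, rho_one, if_pos rfl, one_smul, one_conv]
  · intro p _ hp
    rw [mr_delta, inv_one, rho_one, if_neg hp, zero_smul, map_zero, zero_apply]
  · intro h; exact absurd (mem_univ i) h

lemma Q_one (F : EE G d) : D.Q (delta 1) F = F := by
  ext1 i
  ext1 j
  rw [Q_apply]
  rw [sum_eq_single j]
  · rw [ms_delta, inv_one, sig_one, if_pos rfl, one_smul, conv_one]
  · intro p _ hp
    rw [ms_delta, inv_one, sig_one, if_neg hp, zero_smul, map_zero]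
  · intro h; exact absurd (mem_univ j) h

lemma P_delta (g : G) (F : EE G d) (i j : Fin d) :
    D.P (delta g) F i j = ∑ p, D.rho g⁻¹ p i • conv (delta g) (F p j) := by
  rw [P_apply]
  exact sum_congr rfl fun p _ => by rw [mr_delta, map_smul, smul_apply]

lemma Q_delta (g : G) (F : EE G d) (i j : Fin d) :
    D.Q (delta g) F i j = ∑ l, D.sig g⁻¹ l j • conv (F i l) (delta g) := by
  rw [Q_apply]
  exact sum_congr rfl fun l _ => by rw [ms_delta, map_smul]

lemma P_mul_delta (g h : G) (F : EE G d) :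
    D.P (delta g) (D.P (delta h) F) = D.P (delta (g * h)) F := by
  ext1 i
  ext1 j
  rw [P_delta, P_delta]
  have e1 : ∀ p, D.rho g⁻¹ p i • conv (delta g) (D.P (delta h) F p j) =
      ∑ q, (D.rho h⁻¹ q p * D.rho g⁻¹ p i) • conv (delta (g * h)) (F q j) := by
    intro p
    rw [P_delta, map_sum, smul_sum]
    exact sum_congr rfl fun q _ => by
      rw [map_smul, smul_smul, ← conv_assoc, conv_delta, mul_comm]
  simp_rw [e1]
  rw [sum_comm]
  exact sum_congr rfl fun q _ => by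
    rw [mul_inv_rev, rho_mul, sum_smul]

lemma Q_mul_delta (g h : G) (F : EE G d) :
    D.Q (delta g) (D.Q (delta h) F) = D.Q (delta (h * g)) F := by
  ext1 i
  ext1 j
  rw [Q_delta, Q_delta]
  have e1 : ∀ p, D.sig g⁻¹ p j • conv (D.Q (delta h) F i p) (delta g) =
      ∑ q, (D.sig h⁻¹ q p * D.sig g⁻¹ p j) • conv (F i q) (delta (h * g)) := by
    intro p
    rw [Q_delta, map_sum, _root_.sum_apply, smul_sum]
    exact sum_congr rfl fun q _ => by
      rw [map_smul, smul_apply, smul_smul, conv_assoc, conv_delta, mul_comm]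
  simp_rw [e1]
  rw [sum_comm]
  exact sum_congr rfl fun q _ => by
    rw [mul_inv_rev, sig_mul, sum_smul]

lemma PQ_delta (g h : G) (F : EE G d) :
    D.P (delta g) (D.Q (delta h) F) = D.Q (delta h) (D.P (delta g) F) := by
  ext1 i
  ext1 j
  rw [P_delta, Q_delta]
  have e1 : ∀ p, D.rho g⁻¹ p i • conv (delta g) (D.Q (delta h) F p j) =
      ∑ q, (D.rho g⁻¹ p i * D.sig h⁻¹ q j) • conv (delta g) (conv (F p q) (delta h)) := by
    intro p
    rw [Q_delta, map_sum, smul_sum]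
    exact sum_congr rfl fun q _ => by rw [map_smul, smul_smul]
  have e2 : ∀ q, D.sig h⁻¹ q j • conv (D.P (delta g) F i q) (delta h) =
      ∑ p, (D.rho g⁻¹ p i * D.sig h⁻¹ q j) • conv (delta g) (conv (F p q) (delta h)) := by
    intro q
    rw [P_delta, map_sum, _root_.sum_apply, smul_sum]
    exact sum_congr rfl fun p _ => by
      rw [map_smul, smul_apply, smul_smul, conv_assoc, mul_comm]
  simp_rw [e1, e2]
  rw [sum_comm]

lemma P_mul (s t : L1 G) (F : EE G d) : D.P s (D.P t F) = D.P (conv s t) F := by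
  have h1 : ∀ g, ∀ t : L1 G, D.P (delta g) (D.P t F) = D.P (conv (delta g) t) F := by
    intro g t
    have := ext1_apply (T₁ := (D.P (delta g)).comp (D.PF F)) (T₂ := (D.PF F).comp (conv (delta g)))
      (fun h => by
        simp only [ContinuousLinearMap.comp_apply, PF_eq, conv_delta]
        exact D.P_mul_delta g h F) t
    simpa only [ContinuousLinearMap.comp_apply, PF_eq] using this
  have := ext1_apply (T₁ := D.PF (D.P t F)) (T₂ := (D.PF F).comp (conv.flip t)) (fun g => by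
    simp only [ContinuousLinearMap.comp_apply, PF_eq, ContinuousLinearMap.flip_apply]
    exact h1 g t) s
  simpa only [ContinuousLinearMap.comp_apply, PF_eq, ContinuousLinearMap.flip_apply] using this

lemma Q_mul (s t : L1 G) (F : EE G d) : D.Q s (D.Q t F) = D.Q (conv t s) F := by
  have h1 : ∀ g, ∀ t : L1 G, D.Q (delta g) (D.Q t F) = D.Q (conv t (delta g)) F := by
    intro g t
    have := ext1_apply (T₁ := (D.Q (delta g)).comp (D.QF F))
      (T₂ := (D.QF F).comp (conv.flip (delta g)))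
      (fun h => by
        simp only [ContinuousLinearMap.comp_apply, QF_eq, ContinuousLinearMap.flip_apply,
          conv_delta]
        exact D.Q_mul_delta g h F) t
    simpa only [ContinuousLinearMap.comp_apply, QF_eq, ContinuousLinearMap.flip_apply] using this
  have := ext1_apply (T₁ := D.QF (D.Q t F)) (T₂ := (D.QF F).comp (conv t)) (fun g => by
    simp only [ContinuousLinearMap.comp_apply, QF_eq]
    exact h1 g t) s
  simpa only [ContinuousLinearMap.comp_apply, QF_eq] using this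

lemma PQ_comm (s t : L1 G) (F : EE G d) : D.P s (D.Q t F) = D.Q t (D.P s F) := by
  have h1 : ∀ g, ∀ t : L1 G, D.P (delta g) (D.Q t F) = D.Q t (D.P (delta g) F) := by
    intro g t
    have := ext1_apply (T₁ := (D.P (delta g)).comp (D.QF F)) (T₂ := D.QF (D.P (delta g) F))
      (fun h => by
        simp only [ContinuousLinearMap.comp_apply, QF_eq]
        exact D.PQ_delta g h F) t
    simpa only [ContinuousLinearMap.comp_apply, QF_eq] using this
  have := ext1_apply (T₁ := D.PF (D.Q t F)) (T₂ := (D.Q t).comp (D.PF F)) (fun g => by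
    simp only [ContinuousLinearMap.comp_apply, PF_eq]
    exact h1 g t) s
  simpa only [ContinuousLinearMap.comp_apply, PF_eq] using this

end IData

end Pool.Agent.W665.IDM
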