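import Pool.Agent.W665.IDM.Tau

set_option autoImplicit false

noncomputable section

namespace Pool.Agent.W665.IDM

open Finset

variable {G : Type} [Group G] {I : Submodule ℂ (L1 G)} {d : ℕ} (D : IData G I d)

namespace IData

def mq (q r l j : Fin d) : L1 G →L[ℂ] L1 G :=
  mulB (fun w => D.rho w q r * D.sig w⁻¹ l j) (D.C0 * D.C0) (fun w => by
    rw [norm_mul]
    exact mul_le_mul (D.rho_bd _ _ _) (D.sig_bd _ _ _) (norm_nonneg _) D.C0_nonneg)

lemma mq_delta (q r l j : Fin d) (w : G) :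
    D.mq q r l j (delta w) = (D.rho w q r * D.sig w⁻¹ l j) • delta w := mulB_delta _ _ _ w

lemma rho_inv (y z w : G) (p i : Fin d) :
    D.rho y⁻¹ p i = ∑ q, ∑ r, D.rho (y * (z * w))⁻¹ r i * D.rho z p q * D.rho w q r := by
  have h : y⁻¹ = z * (w * (y * (z * w))⁻¹) := by group
  rw [h, rho_mul]
  refine sum_congr rfl fun q _ => ?_
  rw [rho_mul, mul_sum]
  exact sum_congr rfl fun r _ => by ring

lemma dec_delta (y z w : G) (p i l j : Fin d) :
    conv (D.mr p i (delta y)) (conv (delta z) (D.ms l j (delta w))) =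
      ∑ q, ∑ r, D.mr r i (conv (delta y) (conv (D.mr' p q (delta z)) (D.mq q r l j (delta w)))) := by
  have e : ∀ q r, D.mr r i (conv (delta y) (conv (D.mr' p q (delta z)) (D.mq q r l j (delta w)))) =
      ((D.rho (y * (z * w))⁻¹ r i * D.rho z p q * D.rho w q r) * D.sig w⁻¹ l j) •
        delta (y * (z * w)) := by
    intro q r
    simp only [mr'_delta, mq_delta, map_smul, smul_apply, conv_delta, mr_delta, smul_smul]
    congr 1
    ring
  simp_rw [e]
  simp only [mr_delta, ms_delta, map_smul, smul_apply, conv_delta, smul_smul]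
  rw [D.rho_inv y z w p i, mul_comm, sum_mul, sum_smul]
  refine sum_congr rfl fun q _ => ?_
  rw [sum_mul, sum_smul]

lemma dec (s f t : L1 G) (p i l j : Fin d) :
    conv (D.mr p i s) (conv f (D.ms l j t)) =
      ∑ q, ∑ r, D.mr r i (conv s (conv (D.mr' p q f) (D.mq q r l j t))) := by
  have h1 : ∀ (y z : G) (t : L1 G), conv (D.mr p i (delta y)) (conv (delta z) (D.ms l j t)) =
      ∑ q, ∑ r, D.mr r i (conv (delta y) (conv (D.mr' p q (delta z)) (D.mq q r l j t))) := by
    intro y z t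
    have := ext1_apply (T₁ := (conv (D.mr p i (delta y))).comp ((conv (delta z)).comp (D.ms l j)))
      (T₂ := ∑ q, ∑ r, (D.mr r i).comp ((conv (delta y)).comp
        ((conv (D.mr' p q (delta z))).comp (D.mq q r l j)))) (fun w => by
        simp only [_root_.sum_apply, ContinuousLinearMap.comp_apply]
        exact D.dec_delta y z w p i l j) t
    simpa only [_root_.sum_apply, ContinuousLinearMap.comp_apply] using this
  have h2 : ∀ (y : G) (f t : L1 G), conv (D.mr p i (delta y)) (conv f (D.ms l j t)) =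
      ∑ q, ∑ r, D.mr r i (conv (delta y) (conv (D.mr' p q f) (D.mq q r l j t))) := by
    intro y f t
    have := ext1_apply (T₁ := (conv (D.mr p i (delta y))).comp (conv.flip (D.ms l j t)))
      (T₂ := ∑ q, ∑ r, (D.mr r i).comp ((conv (delta y)).comp
        ((conv.flip (D.mq q r l j t)).comp (D.mr' p q)))) (fun z => by
        simp only [_root_.sum_apply, ContinuousLinearMap.comp_apply,
          ContinuousLinearMap.flip_apply]
        exact h1 y z t) f
    simpa only [_root_.sum_apply, ContinuousLinearMap.comp_apply,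
          ContinuousLinearMap.flip_apply] using this
  have := ext1_apply (T₁ := (conv.flip (conv f (D.ms l j t))).comp (D.mr p i))
      (T₂ := ∑ q, ∑ r, (D.mr r i).comp (conv.flip (conv (D.mr' p q f) (D.mq q r l j t))))
      (fun y => by
        simp only [_root_.sum_apply, ContinuousLinearMap.comp_apply,
          ContinuousLinearMap.flip_apply]
        exact h2 y f t) s
  simpa only [_root_.sum_apply, ContinuousLinearMap.comp_apply,
          ContinuousLinearMap.flip_apply] using this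

lemma pr_mr' (p q : Fin d) (f : L1 G) (hf : f ∈ I) : pr (fun _ => (1 : ℂ)) (D.mr' p q f) = 0 := by
  rw [← eps_eq]
  have := ext1_apply (T₁ := eps.comp (D.mr' p q)) (T₂ := (D.ψ q).comp (conv (D.a p))) (fun g => by
    rw [ContinuousLinearMap.comp_apply, ContinuousLinearMap.comp_apply, mr'_delta, map_smul]
    unfold eps
    rw [lift_delta, smul_eq_mul, mul_one]
    rfl) f
  rw [ContinuousLinearMap.comp_apply, ContinuousLinearMap.comp_apply] at this
  rw [this]
  exact D.hψ q _ (D.hL _ hf _)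

lemma mr'_bound (p q : Fin d) (f : L1 G) (z : G) : ‖D.mr' p q f z‖ ≤ D.C0 * ‖f z‖ := by
  unfold mr'
  rw [mulB_apply, norm_mul]
  exact mul_le_mul_of_nonneg_right (D.rho_bd _ _ _) (norm_nonneg _)

def bd (t τ : ℝ) : ℝ := τ + 2 * (1 - t) / t ^ 2 / τ

/-- one term -/
lemma term_bound {κ s : L1 G} {t : ℝ} (H : Hyp κ s t) (f : L1 G) (hf : f ∈ I) (B : ℝ)
    (hB0 : 0 ≤ B) (hB : ∀ z, ‖f z‖ ≤ B * ‖κ z‖) (τ : ℝ) (hτ : 0 < τ) (p i l j : Fin d) :
    ‖conv (D.mr p i s) (conv f (D.ms l j s))‖ ≤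
      d * (d * (D.C0 * ((D.C0 * D.C0) * (D.C0 * B / 2 * bd t τ)))) := by
  rw [dec]
  have h1 : ∀ q ∈ (univ : Finset (Fin d)), ∀ r ∈ (univ : Finset (Fin d)),
      ‖D.mr r i (conv s (conv (D.mr' p q f) (D.mq q r l j s)))‖ ≤
        D.C0 * ((D.C0 * D.C0) * (D.C0 * B / 2 * bd t τ)) := by
    intro q _ r _
    refine (D.mr_norm _ _ _).trans (mul_le_mul_of_nonneg_left ?_ D.C0_nonneg)
    refine core H (D.mr' p q f) (D.pr_mr' p q f hf) (D.C0 * B) (mul_nonneg D.C0_nonneg hB0) ?_
      _ (D.C0 * D.C0) _ τ hτ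
    intro z
    refine (D.mr'_bound p q f z).trans ?_
    rw [mul_assoc]
    exact mul_le_mul_of_nonneg_left (hB z) D.C0_nonneg
  refine (norm_sum_le _ _).trans ?_
  have h2 : ∀ q ∈ (univ : Finset (Fin d)),
      ‖∑ r, D.mr r i (conv s (conv (D.mr' p q f) (D.mq q r l j s)))‖ ≤
        d * (D.C0 * ((D.C0 * D.C0) * (D.C0 * B / 2 * bd t τ))) := by
    intro q hq
    refine (norm_sum_le _ _).trans ((sum_le_sum (h1 q hq)).trans (le_of_eq ?_))
    rw [sum_const, card_univ, Fintype.card_fin, nsmul_eq_mul]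
  refine (sum_le_sum h2).trans (le_of_eq ?_)
  rw [sum_const, card_univ, Fintype.card_fin, nsmul_eq_mul]

def C2 (B : ℝ) : ℝ := d * (d * (d * (d * (D.C0 * ((D.C0 * D.C0) * (D.C0 * B / 2))))))

lemma C2_nonneg (B : ℝ) (hB : 0 ≤ B) : 0 ≤ D.C2 B := by
  have := D.C0_nonneg
  unfold C2
  positivity

lemma PQ_bound {κ s : L1 G} {t : ℝ} (H : Hyp κ s t) (F : EE G d) (hF : F ∈ X I d) (B : ℝ)
    (hB0 : 0 ≤ B) (hB : ∀ i j z, ‖F i j z‖ ≤ B * ‖κ z‖) (τ : ℝ) (hτ : 0 < τ) :
    ‖D.P s (D.Q s F)‖ ≤ D.C2 B * bd t τ := by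
  have hbd : 0 ≤ bd t τ := by
    unfold bd
    have := H.t0
    have := H.t1
    have h1 : 0 ≤ 1 - t := by linarith
    positivity
  have h0 : 0 ≤ D.C2 B * bd t τ := mul_nonneg (D.C2_nonneg B hB0) hbd
  rw [pi_norm_le_iff_of_nonneg h0]
  intro i
  rw [pi_norm_le_iff_of_nonneg h0]
  intro j
  rw [P_apply]
  refine (norm_sum_le _ _).trans ?_
  have h2 : ∀ p ∈ (univ : Finset (Fin d)), ‖conv (D.mr p i s) (D.Q s F p j)‖ ≤
      d * (d * (d * (D.C0 * ((D.C0 * D.C0) * (D.C0 * B / 2 * bd t τ))))) := by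
    intro p _
    rw [Q_apply, map_sum]
    refine (norm_sum_le _ _).trans ?_
    refine (sum_le_sum (fun l _ => D.term_bound H (F p l) (hF p l) B hB0 (hB p l) τ hτ p i l j)).trans
      (le_of_eq ?_)
    rw [sum_const, card_univ, Fintype.card_fin, nsmul_eq_mul]
  refine (sum_le_sum h2).trans (le_of_eq ?_)
  rw [sum_const, card_univ, Fintype.card_fin, nsmul_eq_mul]
  unfold C2
  ring

end IData

end Pool.Agent.W665.IDM
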