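import Pool.Agent.W665.IDM.Core

set_option autoImplicit false

noncomputable section

namespace Pool.Agent.W665.IDM

variable {G : Type}

lemma er_re (f : L1 G) (hf : ∀ x, f x = (‖f x‖ : ℂ)) (χ : G → ℂ) (C : ℝ) (hχ : ∀ x, ‖χ x‖ ≤ C) :
    er f (fun x => (χ x).re) = (pr χ f).re := by
  unfold er pr
  rw [Complex.re_tsum (pr_summable χ C hχ f)]
  congr 1
  ext x
  conv_rhs => rw [hf x]
  rw [Complex.re_ofReal_mul]

lemma pr_mul_right (f : L1 G) (χ : G → ℂ) (m : ℂ) : pr (fun x => χ x * m) f = pr χ f * m := by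
  unfold pr
  rw [← tsum_mul_right]
  congr 1
  ext x
  ring

section

variable [Group G]

structure Hyp (κ s : L1 G) (t : ℝ) : Prop where
  kpos : ∀ x, κ x = (‖κ x‖ : ℂ)
  kone : ‖κ‖ = 1
  spos : ∀ x, s x = (‖s x‖ : ℂ)
  sone : ‖s‖ = 1
  t0 : 0 < t
  t1 : t < 1
  eq1 : s = ((1 - t : ℝ) : ℂ) • delta 1 + ((t : ℝ) : ℂ) • conv κ s
  eq2 : s = ((1 - t : ℝ) : ℂ) • delta 1 + ((t : ℝ) : ℂ) • conv s κ

variable {κ s : L1 G} {t : ℝ} (H : Hyp κ s t) (φ : G → ℂ) (hφ : ∀ x, ‖φ x‖ ≤ 1)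

def Ph (s : L1 G) (φ : G → ℂ) (w : G) : ℂ := pr (fun y => φ (y * w)) s

include H hφ in
lemma Ph_norm (w : G) : ‖Ph s φ w‖ ≤ 1 := by
  have := pr_bound (fun y => φ (y * w)) 1 (fun y => hφ _) s
  rwa [H.sone, one_mul] at this

def mm (κ s : L1 G) (φ : G → ℂ) (w : G) : ℂ := pr (fun z => Ph s φ (z * w)) κ

include H hφ in
lemma mm_norm (w : G) : ‖mm κ s φ w‖ ≤ 1 := by
  have := pr_bound (fun z => Ph s φ (z * w)) 1 (fun z => Ph_norm H φ hφ _) κ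
  rwa [H.kone, one_mul] at this

include H hφ in
lemma Ph_eq (w : G) : Ph s φ w = ((1 - t : ℝ) : ℂ) * φ w + ((t : ℝ) : ℂ) * mm κ s φ w := by
  have hb : ∀ y : G, ‖φ (y * w)‖ ≤ 1 := fun y => hφ _
  have h1 : Ph s φ w = pr (fun y => φ (y * w)) (((1 - t : ℝ) : ℂ) • delta 1 +
      ((t : ℝ) : ℂ) • conv s κ) := by
    unfold Ph
    rw [← H.eq2]
  rw [h1, pr_add _ 1 hb, pr_smul _ 1 hb, pr_smul _ 1 hb, pr_delta, one_mul,
    pr_conv _ 1 hb]
  congr 2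
  unfold mm Ph
  congr 1
  ext x
  congr 1
  ext y
  rw [mul_assoc]

def VV (κ s : L1 G) (φ : G → ℂ) (w : G) : ℝ :=
  er κ (fun z => ‖Ph s φ (z * w) - mm κ s φ w‖ ^ 2)

def AA (κ s : L1 G) (φ : G → ℂ) (w : G) : ℝ := er κ (fun z => ‖Ph s φ (z * w)‖ ^ 2)

lemma sq_le_one_of {x : ℝ} (h0 : 0 ≤ x) (h1 : x ≤ 1) : |x ^ 2| ≤ 1 := by
  rw [abs_of_nonneg (sq_nonneg x)]
  nlinarith

include H hφ in
lemma VV_eq (w : G) : VV κ s φ w = AA κ s φ w - ‖mm κ s φ w‖ ^ 2 := by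
  have hP : ∀ z, ‖Ph s φ (z * w)‖ ≤ 1 := fun z => Ph_norm H φ hφ _
  have hm := mm_norm H φ hφ w
  have hχ : ∀ z, ‖Ph s φ (z * w) * (starRingEnd ℂ) (mm κ s φ w)‖ ≤ 1 := by
    intro z
    rw [norm_mul, RCLike.norm_conj]
    exact mul_le_one₀ (hP z) (norm_nonneg _) hm
  have h1 : ∀ z, ‖Ph s φ (z * w) - mm κ s φ w‖ ^ 2 = (‖Ph s φ (z * w)‖ ^ 2 +
      (-2) * (Ph s φ (z * w) * (starRingEnd ℂ) (mm κ s φ w)).re) + ‖mm κ s φ w‖ ^ 2 := by
    intro z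
    rw [← Complex.normSq_eq_norm_sq, Complex.normSq_sub, Complex.normSq_eq_norm_sq,
      Complex.normSq_eq_norm_sq]
    ring
  have hre : ∀ z, |(Ph s φ (z * w) * (starRingEnd ℂ) (mm κ s φ w)).re| ≤ 1 := fun z =>
    (Complex.abs_re_le_norm _).trans (hχ z)
  have hre2 : ∀ z, |(-2) * (Ph s φ (z * w) * (starRingEnd ℂ) (mm κ s φ w)).re| ≤ 2 := by
    intro z
    rw [abs_mul, abs_neg, abs_two]
    have := hre z
    linarith
  have hsq : ∀ z, |‖Ph s φ (z * w)‖ ^ 2| ≤ 1 := fun z => sq_le_one_of (norm_nonneg _) (hP z)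
  have hsum : ∀ z, |‖Ph s φ (z * w)‖ ^ 2 +
      (-2) * (Ph s φ (z * w) * (starRingEnd ℂ) (mm κ s φ w)).re| ≤ 3 := by
    intro z
    exact (abs_add_le _ _).trans (by linarith [hsq z, hre2 z])
  unfold VV AA
  simp_rw [h1]
  rw [er_add κ _ _ 3 (|‖mm κ s φ w‖ ^ 2|) hsum (fun _ => le_refl _), er_const, H.kone, one_mul,
    er_add κ _ _ 1 2 hsq hre2, er_smul, er_re κ H.kpos _ 1 hχ, pr_mul_right]
  have h2 : pr (fun z => Ph s φ (z * w)) κ = mm κ s φ w := rfl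
  rw [h2, Complex.mul_conj, Complex.normSq_eq_norm_sq, Complex.ofReal_re]
  ring

lemma er_er (ψ : G → ℝ) (hψ : ∀ x, |ψ x| ≤ 1) (H : Hyp κ s t) :
    er s ψ = (1 - t) * ψ 1 + t * er s (fun w => er κ (fun z => ψ (z * w))) := by
  have hc : ∀ x, ‖((ψ x : ℝ) : ℂ)‖ ≤ 1 := fun x => by
    rw [Complex.norm_real]; exact hψ x
  have h1 : pr (fun x => (ψ x : ℂ)) s = pr (fun x => (ψ x : ℂ)) (((1 - t : ℝ) : ℂ) • delta 1 +
      ((t : ℝ) : ℂ) • conv κ s) := by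
    rw [← H.eq1]
  rw [pr_add _ 1 hc, pr_smul _ 1 hc, pr_smul _ 1 hc, pr_delta, pr_conv _ 1 hc,
    pr_eq_er s H.spos] at h1
  have h2 : ∀ x, pr (fun y => ((ψ (y * x) : ℝ) : ℂ)) κ = ((er κ (fun y => ψ (y * x)) : ℝ) : ℂ) :=
    fun x => pr_eq_er κ H.kpos (fun y => ψ (y * x))
  simp_rw [h2] at h1
  rw [pr_eq_er s H.spos] at h1
  exact_mod_cast h1

include H hφ in
lemma AA_bound (w : G) : |AA κ s φ w| ≤ 1 := by
  have := er_abs_le κ (fun z => ‖Ph s φ (z * w)‖ ^ 2) 1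
    (fun z => sq_le_one_of (norm_nonneg _) (Ph_norm H φ hφ _))
  rwa [H.kone, one_mul] at this

include H hφ in
lemma er_VV : er s (VV κ s φ) ≤ 2 * (1 - t) / t ^ 2 := by
  have ht0 := H.t0
  have ht1 := H.t1
  have hsq : ∀ x, |‖Ph s φ x‖ ^ 2| ≤ 1 := fun x =>
    sq_le_one_of (norm_nonneg _) (Ph_norm H φ hφ _)
  have hmsq : ∀ x, |‖mm κ s φ x‖ ^ 2| ≤ 1 := fun x =>
    sq_le_one_of (norm_nonneg _) (mm_norm H φ hφ _)
  have h1 : VV κ s φ = fun w => AA κ s φ w - ‖mm κ s φ w‖ ^ 2 := by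
    ext w
    exact VV_eq H φ hφ w
  rw [h1, er_sub s _ _ 1 1 (AA_bound H φ hφ) hmsq]
  have h2 := er_er (κ := κ) (s := s) (fun x => ‖Ph s φ x‖ ^ 2) hsq H
  have h3 : er s (fun w => er κ (fun z => ‖Ph s φ (z * w)‖ ^ 2)) = er s (AA κ s φ) := rfl
  rw [h3] at h2
  -- lower bound on the second
  have h4 : ∀ w, ‖Ph s φ w‖ ^ 2 - 2 * (1 - t) ≤ t ^ 2 * ‖mm κ s φ w‖ ^ 2 := by
    intro w
    have e := Ph_eq H φ hφ w
    have hn : ‖Ph s φ w‖ ≤ (1 - t) + t * ‖mm κ s φ w‖ := by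
      rw [e]
      refine (norm_add_le _ _).trans ?_
      rw [norm_mul, norm_mul, Complex.norm_real, Complex.norm_real, Real.norm_eq_abs,
        Real.norm_eq_abs, abs_of_nonneg (by linarith : (0:ℝ) ≤ 1 - t), abs_of_nonneg ht0.le]
      have := mul_le_mul_of_nonneg_left (hφ w) (by linarith : (0:ℝ) ≤ 1 - t)
      linarith
    have hp := norm_nonneg (Ph s φ w)
    have hp1 := Ph_norm H φ hφ w
    have hm := norm_nonneg (mm κ s φ w)
    by_cases hcase : ‖Ph s φ w‖ ≤ 1 - t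
    · have : ‖Ph s φ w‖ ^ 2 ≤ 1 - t := by nlinarith
      have : 0 ≤ t ^ 2 * ‖mm κ s φ w‖ ^ 2 := by positivity
      linarith
    · push Not at hcase
      have h5 : (‖Ph s φ w‖ - (1 - t)) ^ 2 ≤ (t * ‖mm κ s φ w‖) ^ 2 := by
        apply pow_le_pow_left₀ (by linarith)
        linarith
      nlinarith
  have h5 := er_mono s (fun w => ‖Ph s φ w‖ ^ 2 - 2 * (1 - t)) (fun w => t ^ 2 * ‖mm κ s φ w‖ ^ 2)
    3 1 (fun w => by
      have := hsq w
      rw [abs_le] at this ⊢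
      constructor <;> linarith [this.1, this.2])
    (fun w => by
      rw [abs_mul]
      have h6 : |t ^ 2| ≤ 1 := by rw [abs_of_nonneg (sq_nonneg t)]; nlinarith
      exact mul_le_one₀ h6 (abs_nonneg _) (hmsq w)) h4
  rw [er_smul, er_sub s _ _ 1 (|2 * (1 - t)|) hsq (fun _ => le_refl _), er_const, H.sone,
    one_mul] at h5
  have hΨ : 0 ≤ er s (fun x => ‖Ph s φ x‖ ^ 2) := tsum_nonneg fun x => by positivity
  have hA : t * er s (AA κ s φ) ≤ er s (fun x => ‖Ph s φ x‖ ^ 2) := by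
    have : 0 ≤ (1 - t) * ‖Ph s φ 1‖ ^ 2 := mul_nonneg (by linarith) (by positivity)
    linarith
  rw [le_div_iff₀ (by positivity)]
  nlinarith

include H hφ in
lemma J_bound (h : L1 G) (hh : pr (fun _ => (1 : ℂ)) h = 0) (B : ℝ) (hB0 : 0 ≤ B)
    (hB : ∀ z, ‖h z‖ ≤ B * ‖κ z‖) (τ : ℝ) (hτ : 0 < τ) (w : G) :
    ‖pr (fun z => Ph s φ (z * w)) h‖ ≤ B / 2 * (τ + VV κ s φ w / τ) := by
  have hP : ∀ z, ‖Ph s φ (z * w)‖ ≤ 1 := fun z => Ph_norm H φ hφ _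
  have hm := mm_norm H φ hφ w
  set m := mm κ s φ w with hmdef
  have hd : ∀ z, ‖Ph s φ (z * w) - m‖ ≤ 2 := fun z =>
    (norm_sub_le _ _).trans (by linarith [hP z])
  have h1 : pr (fun z => Ph s φ (z * w)) h = pr (fun z => Ph s φ (z * w) - m) h := by
    have h2 : pr (fun _ => m) h = 0 := by
      have := pr_mul_right h (fun _ => (1 : ℂ)) m
      simp only [one_mul] at this
      rw [this, hh, zero_mul]
    have h3 : pr (fun z => Ph s φ (z * w) - m) h = pr (fun z => Ph s φ (z * w)) h -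
        pr (fun _ => m) h := by
      unfold pr
      rw [← (pr_summable _ 1 hP h).tsum_sub (pr_summable (fun _ => m) 1 (fun _ => hm) h)]
      congr 1
      ext x
      ring
    rw [h3, h2, sub_zero]
  rw [h1]
  refine (norm_pr_le_er _ h 2 hd).trans ?_
  have hsq : ∀ z, |‖Ph s φ (z * w) - m‖ ^ 2| ≤ 4 := by
    intro z
    rw [abs_of_nonneg (sq_nonneg _)]
    have := hd z
    have h0 := norm_nonneg (Ph s φ (z * w) - m)
    nlinarith
  have h4 : er h (fun z => ‖Ph s φ (z * w) - m‖) ≤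
      ∑' z, ‖κ z‖ * (B / 2 * τ + B / 2 / τ * ‖Ph s φ (z * w) - m‖ ^ 2) := by
    unfold er
    apply Summable.tsum_le_tsum
    · intro z
      have h5 : ‖Ph s φ (z * w) - m‖ ≤ (τ + ‖Ph s φ (z * w) - m‖ ^ 2 / τ) / 2 := by
        rw [le_div_iff₀ (by norm_num), ← sub_nonneg]
        have : τ + ‖Ph s φ (z * w) - m‖ ^ 2 / τ - ‖Ph s φ (z * w) - m‖ * 2 =
            (τ - ‖Ph s φ (z * w) - m‖) ^ 2 / τ := by
          field_simp
          ring
        rw [this]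
        positivity
      calc ‖h z‖ * ‖Ph s φ (z * w) - m‖ ≤ (B * ‖κ z‖) *
            ((τ + ‖Ph s φ (z * w) - m‖ ^ 2 / τ) / 2) :=
            mul_le_mul (hB z) h5 (norm_nonneg _) (mul_nonneg hB0 (norm_nonneg _))
        _ = _ := by ring
    · exact er_summable h _ 2 (fun z => by rw [abs_of_nonneg (norm_nonneg _)]; exact hd z)
    · apply er_summable κ _ (|B / 2 * τ| + |B / 2 / τ| * 4)
      intro z
      refine (abs_add_le _ _).trans (add_le_add (le_refl _) ?_)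
      rw [abs_mul]
      exact mul_le_mul_of_nonneg_left (hsq z) (abs_nonneg _)
  refine h4.trans (le_of_eq ?_)
  have h6 : (∑' z, ‖κ z‖ * (B / 2 * τ + B / 2 / τ * ‖Ph s φ (z * w) - m‖ ^ 2)) =
      er κ (fun z => B / 2 * τ + B / 2 / τ * ‖Ph s φ (z * w) - m‖ ^ 2) := rfl
  rw [h6, er_add κ _ _ (|B / 2 * τ|) (|B / 2 / τ| * 4) (fun _ => le_refl _) (fun z => by
    rw [abs_mul]
    exact mul_le_mul_of_nonneg_left (hsq z) (abs_nonneg _)), er_const, H.kone, one_mul, er_smul]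
  have h7 : er κ (fun z => ‖Ph s φ (z * w) - m‖ ^ 2) = VV κ s φ w := rfl
  rw [h7]
  ring

include H in
/-- the core estimate -/
theorem core (h : L1 G) (hh : pr (fun _ => (1 : ℂ)) h = 0) (B : ℝ) (hB0 : 0 ≤ B)
    (hB : ∀ z, ‖h z‖ ≤ B * ‖κ z‖) (c : G → ℂ) (C' : ℝ) (hc : ∀ w, ‖c w‖ ≤ C') (τ : ℝ)
    (hτ : 0 < τ) :
    ‖conv s (conv h (mulB c C' hc s))‖ ≤ C' * (B / 2 * (τ + 2 * (1 - t) / t ^ 2 / τ)) := by
  have hC' : 0 ≤ C' := (norm_nonneg (c 1)).trans (hc 1)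
  apply norm_le_of_pr
  intro φ hφ
  rw [pr_conv φ 1 hφ]
  have hPh : ∀ x, ‖Ph s φ x‖ ≤ 1 := Ph_norm H φ hφ
  have h1 : (fun x => pr (fun y => φ (y * x)) s) = Ph s φ := rfl
  rw [h1, pr_conv _ 1 hPh]
  have hJ := J_bound H φ hφ h hh B hB0 hB τ hτ
  have hJ2 : ∀ w, ‖pr (fun z => Ph s φ (z * w)) h‖ ≤ ‖h‖ := by
    intro w
    have := pr_bound (fun z => Ph s φ (z * w)) 1 (fun z => hPh _) h
    rwa [one_mul] at this
  have hVb : ∀ w, |VV κ s φ w| ≤ 2 := by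
    intro w
    rw [VV_eq H φ hφ]
    have h2 := AA_bound H φ hφ w
    have h3 := sq_le_one_of (norm_nonneg _) (mm_norm H φ hφ w)
    rw [abs_le] at h2 h3 ⊢
    constructor <;> linarith [h2.1, h2.2, h3.1, h3.2]
  -- norm of the pairing
  have h4 : ‖pr (fun w => pr (fun z => Ph s φ (z * w)) h) (mulB c C' hc s)‖ ≤
      er s (fun w => C' * (B / 2 * (τ + VV κ s φ w / τ))) := by
    unfold pr er
    apply tsum_of_norm_bounded
    · apply (er_summable s (fun w => C' * (B / 2 * (τ + VV κ s φ w / τ)))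
        (C' * (B / 2 * (τ + 2 / τ))) ?_).hasSum
      intro w
      rw [abs_mul, abs_of_nonneg hC', abs_mul, abs_of_nonneg (by positivity : (0:ℝ) ≤ B / 2)]
      gcongr
      refine (abs_add_le _ _).trans ?_
      rw [abs_of_pos hτ, abs_div, abs_of_pos hτ]
      have := hVb w
      gcongr
    · intro w
      rw [mulB_apply, norm_mul, norm_mul]
      calc ‖c w‖ * ‖s w‖ * ‖pr (fun z => Ph s φ (z * w)) h‖
          ≤ C' * ‖s w‖ * (B / 2 * (τ + VV κ s φ w / τ)) := by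
            apply mul_le_mul _ (hJ w) (norm_nonneg _) (mul_nonneg hC' (norm_nonneg _))
            exact mul_le_mul_of_nonneg_right (hc w) (norm_nonneg _)
        _ = _ := by ring
  refine h4.trans ?_
  rw [er_smul, er_smul]
  apply mul_le_mul_of_nonneg_left _ hC'
  apply mul_le_mul_of_nonneg_left _ (by positivity)
  have h5 : (fun x => τ + VV κ s φ x / τ) = fun x => τ + (1 / τ) * VV κ s φ x := by
    ext x
    ring
  rw [h5, er_add s _ _ (|τ|) (1 / τ * 2) (fun _ => le_refl _) (fun w => by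
    rw [abs_mul, abs_of_pos (by positivity : (0:ℝ) < 1 / τ)]
    exact mul_le_mul_of_nonneg_left (hVb w) (by positivity)), er_const, H.sone, one_mul, er_smul]
  have h6 := er_VV H φ hφ
  have h7 : 1 / τ * er s (fun x => VV κ s φ x) ≤ 1 / τ * (2 * (1 - t) / t ^ 2) :=
    mul_le_mul_of_nonneg_left h6 (by positivity)
  calc τ + 1 / τ * er s (fun x => VV κ s φ x) ≤ τ + 1 / τ * (2 * (1 - t) / t ^ 2) := by linarith
    _ = _ := by ring

end

end Pool.Agent.W665.IDM
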