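import Pool.Agent.W665.IDM.Main

set_option autoImplicit false

noncomputable section

namespace Pool.Agent.W665.IDM

open Finset

variable {G : Type}

/-- normalised absolute value -/
lemma exists_kappa (f : L1 G) (hf : f ≠ 0) :
    ∃ κ : L1 G, (∀ x, κ x = (‖κ x‖ : ℂ)) ∧ ‖κ‖ = 1 ∧ ∀ x, ‖f x‖ = ‖f‖ * ‖κ x‖ := by
  have hn : 0 < ‖f‖ := norm_pos_iff.2 hf
  have hm : Memℓp (fun x : G => (((‖f x‖ / ‖f‖ : ℝ)) : ℂ)) 1 := by
    apply memℓp_gen
    simp only [ENNReal.toReal_one, Real.rpow_one, Complex.norm_real, Real.norm_eq_abs]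
    have : Summable (fun x => ‖f x‖ / ‖f‖) := (sn f).div_const _
    exact this.abs
  let κ : L1 G := ⟨fun x : G => (((‖f x‖ / ‖f‖ : ℝ)) : ℂ), hm⟩
  have hκ : ∀ x, κ x = (((‖f x‖ / ‖f‖ : ℝ)) : ℂ) := fun x => rfl
  have hκn : ∀ x, ‖κ x‖ = ‖f x‖ / ‖f‖ := fun x => by
    rw [hκ, Complex.norm_real, Real.norm_eq_abs, abs_of_nonneg (by positivity)]
  refine ⟨κ, fun x => by rw [hκn, hκ], ?_, fun x => ?_⟩
  · rw [norm_eq]
    simp_rw [hκn]
    rw [tsum_div_const, ← norm_eq, div_self hn.ne']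
  · rw [hκn, mul_div_cancel₀ _ hn.ne']

variable [Group G]

theorem IData.mem_of {I : Submodule ℂ (L1 G)} {d : ℕ} (D : IData G I d) (f : L1 G) (hf : f ∈ I) :
    f ∈ I2 I := by
  by_cases h0 : f = 0
  · rw [h0]; exact (I2 I).zero_mem
  obtain ⟨κ, kpos, kone, hκ⟩ := exists_kappa f h0
  set M : ℝ := ∑ i, ∑ j, ‖D.ψ i (delta 1) * D.ψ j (delta 1)‖ with hM
  have hM0 : 0 ≤ M := sum_nonneg fun _ _ => sum_nonneg fun _ _ => norm_nonneg _
  have hMle : ∀ i j, ‖D.ψ i (delta 1) * D.ψ j (delta 1)‖ ≤ M := by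
    intro i j
    have h1 : ‖D.ψ i (delta 1) * D.ψ j (delta 1)‖ ≤
        ∑ j, ‖D.ψ i (delta 1) * D.ψ j (delta 1)‖ :=
      single_le_sum (f := fun j => ‖D.ψ i (delta 1) * D.ψ j (delta 1)‖)
        (fun _ _ => norm_nonneg _) (mem_univ j)
    refine h1.trans ?_
    exact single_le_sum (f := fun i => ∑ j, ‖D.ψ i (delta 1) * D.ψ j (delta 1)‖)
      (fun _ _ => sum_nonneg (fun _ _ => norm_nonneg _)) (mem_univ i)
  have h1 : D.tau (D.F0 f) ∈ I2 I := by
    refine D.tau_mem kpos kone (D.F0 f) (D.F0_mem f hf) (M * ‖f‖)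
      (mul_nonneg hM0 (norm_nonneg _)) ?_
    intro i j z
    have e : D.F0 f i j z = (D.ψ i (delta 1) * D.ψ j (delta 1)) * f z := by
      unfold IData.F0
      rw [lp.coeFn_smul, Pi.smul_apply, smul_eq_mul]
    rw [e, norm_mul, mul_assoc, ← hκ z]
    exact mul_le_mul_of_nonneg_right (hMle i j) (norm_nonneg _)
  have h2 := (I2 I).sub_mem h1 (D.tau_F0 f hf)
  rwa [sub_sub_cancel] at h2

def mkData (I : Submodule ℂ (L1 G)) (hIc : IsClosed (I : Set (L1 G)))
    (hL : ∀ f ∈ I, ∀ b, conv b f ∈ I) (hR : ∀ f ∈ I, ∀ b, conv f b ∈ I)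
    [FiniteDimensional ℂ (L1 G ⧸ I)] : IData G I (Module.finrank ℂ (L1 G ⧸ I)) :=
  haveI : IsClosed (I : Set (L1 G)) := hIc
  let b := Module.finBasis ℂ (L1 G ⧸ I)
  { a := fun i => Function.surjInv I.mkQ_surjective (b i)
    ψ := fun k => (LinearMap.toContinuousLinearMap (b.coord k)).comp I.mkQL
    hψ := fun k f hf => by
      show b.coord k (I.mkQ f) = 0
      have : I.mkQ f = 0 := (Submodule.Quotient.mk_eq_zero I).2 hf
      rw [this, map_zero]
    ha := fun f => by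
      apply (Submodule.Quotient.mk_eq_zero I).1
      show I.mkQ _ = 0
      rw [map_sub, map_sum, sub_eq_zero]
      conv_lhs => rw [← b.sum_repr (I.mkQ f)]
      refine sum_congr rfl fun k _ => ?_
      rw [map_smul, Function.surjInv_eq I.mkQ_surjective]
      rfl
    hdual := fun i k => by
      show b.coord k (I.mkQ (Function.surjInv I.mkQ_surjective (b i))) = _
      rw [Function.surjInv_eq I.mkQ_surjective, Module.Basis.coord_apply, Module.Basis.repr_self,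
        Finsupp.single_apply]
    hIc := hIc
    hL := hL
    hR := hR }

/-- **Main theorem.** Every closed two-sided ideal of finite codimension of `ℓ¹(G)` is spanned by
products of pairs of its elements. -/
theorem main (I : Submodule ℂ (L1 G)) (hIc : IsClosed (I : Set (L1 G)))
    (hL : ∀ f ∈ I, ∀ b, conv b f ∈ I) (hR : ∀ f ∈ I, ∀ b, conv f b ∈ I)
    [FiniteDimensional ℂ (L1 G ⧸ I)] : I2 I = I := by
  apply le_antisymm
  · apply Submodule.span_le.2
    rintro h ⟨a, ha, b, hb, rfl⟩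
    exact hR a ha b
  · intro f hf
    exact (mkData I hIc hL hR).mem_of f hf

lemma eq_conv_iff (h a b : L1 G) : (∀ x, h x = ∑' y, a y * b (y⁻¹ * x)) ↔ h = conv a b := by
  constructor
  · intro H
    apply lp.ext
    funext x
    rw [conv_apply]
    exact H x
  · rintro rfl x
    exact conv_apply a b x

theorem main' (I : Submodule ℂ (lp (fun _ : G => ℂ) 1))
    (hIc : IsClosed (I : Set (lp (fun _ : G => ℂ) 1)))
    (hR : ∀ f ∈ I, ∀ g h : lp (fun _ : G => ℂ) 1, (∀ x : G, h x = ∑' y : G, f y * g (y⁻¹ * x)) → h ∈ I)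
    (hL : ∀ f ∈ I, ∀ g h : lp (fun _ : G => ℂ) 1, (∀ x : G, h x = ∑' y : G, g y * f (y⁻¹ * x)) → h ∈ I)
    (hfd : FiniteDimensional ℂ ((lp (fun _ : G => ℂ) 1) ⧸ I)) :
    Submodule.span ℂ {h : lp (fun _ : G => ℂ) 1 | ∃ a ∈ I, ∃ b ∈ I, ∀ x : G,
      h x = ∑' y : G, a y * b (y⁻¹ * x)} = I := by
  have h := main I hIc (fun f hf b => hL f hf b _ (conv_apply b f))
    (fun f hf b => hR f hf b _ (conv_apply f b))
  have e : {h : lp (fun _ : G => ℂ) 1 | ∃ a ∈ I, ∃ b ∈ I, ∀ x : G,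
      h x = ∑' y : G, a y * b (y⁻¹ * x)} = {h | ∃ a ∈ I, ∃ b ∈ I, h = conv a b} := by
    ext h
    simp only [Set.mem_ofPred_eq, eq_conv_iff]
  rw [e]
  exact h

end Pool.Agent.W665.IDM
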