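import Mathlib

set_option autoImplicit false

noncomputable section

namespace Pool.Agent.W665.IDM

abbrev L1 (G : Type) := lp (fun _ : G => ℂ) 1

variable {G : Type}

lemma sn (f : L1 G) : Summable (fun x => ‖f x‖) := by
  have h := (lp.memℓp f).summable (by norm_num : 0 < (1 : ENNReal).toReal)
  simpa using h

lemma norm_eq (f : L1 G) : ‖f‖ = ∑' x, ‖f x‖ := by
  rw [lp.norm_eq_tsum_rpow (by norm_num)]
  simp

lemma norm_apply_le (f : L1 G) (x : G) : ‖f x‖ ≤ ‖f‖ := by
  rw [norm_eq]
  exact (sn f).le_tsum x (fun _ _ => norm_nonneg _)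

section lift

variable {F : Type*} [NormedAddCommGroup F] [NormedSpace ℂ F] [CompleteSpace F]

lemma lift_summable (v : G → F) (C : ℝ) (hv : ∀ g, ‖v g‖ ≤ C) (f : L1 G) :
    Summable (fun g => f g • v g) := by
  apply Summable.of_norm_bounded ((sn f).mul_right C)
  intro g
  rw [norm_smul]
  exact mul_le_mul_of_nonneg_left (hv g) (norm_nonneg _)

def lift (v : G → F) (C : ℝ) (hv : ∀ g, ‖v g‖ ≤ C) : L1 G →L[ℂ] F :=
  LinearMap.mkContinuous
    { toFun := fun f => ∑' g, f g • v g
      map_add' := fun f g => by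
        rw [← (lift_summable v C hv f).tsum_add (lift_summable v C hv g)]
        congr 1
        ext x
        rw [lp.coeFn_add, Pi.add_apply, add_smul]
      map_smul' := fun c f => by
        rw [RingHom.id_apply, ← (lift_summable v C hv f).tsum_const_smul c]
        congr 1
        ext x
        rw [lp.coeFn_smul, Pi.smul_apply, smul_eq_mul, mul_smul] } C
    (fun f => by
      show ‖∑' g, f g • v g‖ ≤ C * ‖f‖
      rw [norm_eq, mul_comm, ← tsum_mul_right]
      apply tsum_of_norm_bounded ((sn f).mul_right C).hasSum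
      intro g
      rw [norm_smul]
      exact mul_le_mul_of_nonneg_left (hv g) (norm_nonneg _))

lemma lift_apply (v : G → F) (C : ℝ) (hv : ∀ g, ‖v g‖ ≤ C) (f : L1 G) :
    lift v C hv f = ∑' g, f g • v g := rfl

lemma lift_norm (v : G → F) (C : ℝ) (hv : ∀ g, ‖v g‖ ≤ C) (hC : 0 ≤ C) :
    ‖lift v C hv‖ ≤ C := LinearMap.mkContinuous_norm_le _ hC _

lemma lift_norm_apply (v : G → F) (C : ℝ) (hv : ∀ g, ‖v g‖ ≤ C) (f : L1 G) :
    ‖lift v C hv f‖ ≤ C * ‖f‖ := by
  rw [lift_apply, norm_eq, mul_comm, ← tsum_mul_right]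
  apply tsum_of_norm_bounded ((sn f).mul_right C).hasSum
  intro g
  rw [norm_smul]
  exact mul_le_mul_of_nonneg_left (hv g) (norm_nonneg _)

open Classical in
def delta (g : G) : L1 G := lp.single 1 g (1 : ℂ)

open Classical in
lemma delta_apply (g x : G) : delta g x = if x = g then 1 else 0 := by
  unfold delta
  rw [lp.single_apply, Pi.single_apply]

lemma delta_norm (g : G) : ‖delta g‖ = 1 := by
  classical
  unfold delta
  rw [lp.norm_single (by norm_num)]
  simp

lemma lift_delta (v : G → F) (C : ℝ) (hv : ∀ g, ‖v g‖ ≤ C) (g : G) :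
    lift v C hv (delta g) = v g := by
  classical
  rw [lift_apply, tsum_eq_single g]
  · rw [delta_apply, if_pos rfl, one_smul]
  · intro x hx
    rw [delta_apply, if_neg hx, zero_smul]

omit [CompleteSpace F] in
lemma ext1 {T₁ T₂ : L1 G →L[ℂ] F} (h : ∀ g, T₁ (delta g) = T₂ (delta g)) : T₁ = T₂ := by
  classical
  apply lp.ext_continuousLinearMap (by norm_num)
  intro i
  ext
  exact h i

omit [CompleteSpace F] in
lemma ext1_apply {T₁ T₂ : L1 G →L[ℂ] F} (h : ∀ g, T₁ (delta g) = T₂ (delta g)) (f : L1 G) :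
    T₁ f = T₂ f := by rw [ext1 h]

omit [CompleteSpace F] in
/-- a closed submodule containing the images of all deltas contains the range -/
lemma mem_of_delta (T : L1 G →L[ℂ] F) (X : Submodule ℂ F) (hX : IsClosed (X : Set F))
    (h : ∀ g, T (delta g) ∈ X) (f : L1 G) : T f ∈ X := by
  classical
  have hs := lp.hasSum_single (by norm_num : (1 : ENNReal) ≠ ⊤) f
  have hs2 := hs.mapL T
  have hmem : ∀ g, T (lp.single 1 g (f g)) ∈ X := by
    intro g
    have : lp.single 1 g (f g) = (f g) • delta g := by
      unfold delta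
      rw [← lp.single_smul, smul_eq_mul, mul_one]
    rw [this, map_smul]
    exact X.smul_mem _ (h g)
  exact hX.mem_of_tendsto hs2 (Filter.Eventually.of_forall fun s => X.sum_mem fun g _ => hmem g)

end lift

/-- multiplication by a bounded function -/
def mulB (u : G → ℂ) (C : ℝ) (hu : ∀ g, ‖u g‖ ≤ C) : L1 G →L[ℂ] L1 G :=
  lift (fun g => u g • delta g) C (fun g => by rw [norm_smul, delta_norm, mul_one]; exact hu g)

lemma mulB_delta (u : G → ℂ) (C : ℝ) (hu : ∀ g, ‖u g‖ ≤ C) (g : G) :
    mulB u C hu (delta g) = u g • delta g := lift_delta _ _ _ g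

def evalL (x : G) : L1 G →L[ℂ] ℂ :=
  LinearMap.mkContinuous
    { toFun := fun f => f x
      map_add' := fun f g => by rw [lp.coeFn_add, Pi.add_apply]
      map_smul' := fun c f => by rw [lp.coeFn_smul, Pi.smul_apply]; rfl } 1
    (fun f => by rw [one_mul]; exact norm_apply_le f x)

lemma evalL_apply (x : G) (f : L1 G) : evalL x f = f x := rfl

lemma mulB_apply (u : G → ℂ) (C : ℝ) (hu : ∀ g, ‖u g‖ ≤ C) (f : L1 G) (x : G) :
    mulB u C hu f x = u x * f x := by
  have h : ((evalL x).comp (mulB u C hu)) = (u x) • (evalL x) := by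
    apply ext1
    intro g
    classical
    rw [ContinuousLinearMap.comp_apply, mulB_delta, map_smul, smul_apply,
      evalL_apply, delta_apply]
    by_cases hg : x = g
    · subst hg; simp
    · simp [hg]
  have h2 := congrArg (fun T => T f) h
  simpa [evalL_apply] using h2

section conv

variable [Group G]

def lam (g : G) : L1 G →L[ℂ] L1 G :=
  lift (fun h => delta (g * h)) 1 (fun h => by rw [delta_norm])

lemma lam_delta (g h : G) : lam g (delta h) = delta (g * h) := lift_delta _ _ _ _

lemma lam_norm (g : G) : ‖lam g‖ ≤ 1 := lift_norm _ _ _ zero_le_one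

def conv : L1 G →L[ℂ] (L1 G →L[ℂ] L1 G) := lift lam 1 lam_norm

lemma conv_delta_left (g : G) : conv (delta g) = lam g := lift_delta _ _ _ _

lemma conv_delta (g h : G) : conv (delta g) (delta h) = delta (g * h) := by
  rw [conv_delta_left, lam_delta]

lemma conv_norm (a : L1 G) : ‖conv a‖ ≤ ‖a‖ := by
  have := lift_norm_apply (F := L1 G →L[ℂ] L1 G) lam 1 lam_norm a
  rw [one_mul] at this
  exact this

lemma conv_norm_le (a b : L1 G) : ‖conv a b‖ ≤ ‖a‖ * ‖b‖ :=
  ((conv a).le_opNorm b).trans (mul_le_mul_of_nonneg_right (conv_norm a) (norm_nonneg _))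

/-- bilinear extensionality -/
lemma ext2 {F : Type*} [NormedAddCommGroup F] [NormedSpace ℂ F]
    {T₁ T₂ : L1 G →L[ℂ] (L1 G →L[ℂ] F)}
    (h : ∀ g k, T₁ (delta g) (delta k) = T₂ (delta g) (delta k)) : T₁ = T₂ := by
  apply ext1
  intro g
  apply ext1
  intro k
  exact h g k

lemma conv_assoc (a b c : L1 G) : conv (conv a b) c = conv a (conv b c) := by
  have h1 : ∀ g k l : G, conv (conv (delta g) (delta k)) (delta l) =
      conv (delta g) (conv (delta k) (delta l)) := by
    intro g k l
    rw [conv_delta, conv_delta, conv_delta, conv_delta, mul_assoc]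
  have h2 : ∀ (g k : G) (c : L1 G), conv (conv (delta g) (delta k)) c =
      conv (delta g) (conv (delta k) c) := by
    intro g k c
    exact ext1_apply (T₁ := conv (conv (delta g) (delta k)))
      (T₂ := (conv (delta g)).comp (conv (delta k))) (fun l => h1 g k l) c
  have h3 : ∀ (g : G) (b c : L1 G), conv (conv (delta g) b) c =
      conv (delta g) (conv b c) := by
    intro g b c
    exact ext1_apply (T₁ := (conv.flip c).comp (conv (delta g)))
      (T₂ := (conv (delta g)).comp (conv.flip c)) (fun k => h2 g k c) b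
  exact ext1_apply (T₁ := (conv.flip c).comp (conv.flip b))
      (T₂ := conv.flip (conv b c)) (fun g => h3 g b c) a

lemma one_conv (a : L1 G) : conv (delta 1) a = a :=
  ext1_apply (T₁ := conv (delta 1)) (T₂ := ContinuousLinearMap.id ℂ _)
    (fun g => by rw [conv_delta, one_mul]; rfl) a

lemma conv_one (a : L1 G) : conv a (delta 1) = a :=
  ext1_apply (T₁ := conv.flip (delta 1)) (T₂ := ContinuousLinearMap.id ℂ _)
    (fun g => by
      show conv (delta g) (delta 1) = delta g
      rw [conv_delta, mul_one]) a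

lemma lam_apply (g : G) (f : L1 G) (x : G) : lam g f x = f (g⁻¹ * x) := by
  have h : ((evalL x).comp (lam g)) = evalL (g⁻¹ * x) := by
    apply ext1
    intro k
    classical
    rw [ContinuousLinearMap.comp_apply, lam_delta, evalL_apply, evalL_apply, delta_apply,
      delta_apply]
    congr 1
    rw [eq_iff_iff]
    constructor
    · intro h; rw [h]; group
    · intro h; rw [← h]; group
  have h2 := congrArg (fun T => T f) h
  simpa [evalL_apply] using h2

lemma conv_apply (a b : L1 G) (x : G) : conv a b x = ∑' y, a y * b (y⁻¹ * x) := by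
  have h := ext1_apply (T₁ := (evalL x).comp (conv.flip b))
    (T₂ := lift (fun y => b (y⁻¹ * x)) ‖b‖ (fun y => norm_apply_le b _)) (fun y => by
      rw [lift_delta, ContinuousLinearMap.comp_apply, ContinuousLinearMap.flip_apply,
        conv_delta_left, evalL_apply, lam_apply]) a
  rw [lift_apply] at h
  simpa [evalL_apply] using h

end conv

end Pool.Agent.W665.IDM
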