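import Mathlib

set_option autoImplicit false

noncomputable section

namespace Pool.Agent.W665.IDM

open Filter Topology Finset

section

variable {E : Type*} [NormedAddCommGroup E] [NormedSpace ℂ E] [CompleteSpace E]

def wt (k : ℕ) : ℂ := ((1 / 2 : ℝ) ^ (k + 1) : ℝ)

lemma wt_norm (k : ℕ) : ‖wt k‖ = (1 / 2 : ℝ) ^ (k + 1) := by
  unfold wt
  rw [Complex.norm_real, Real.norm_eq_abs, abs_of_nonneg (by positivity)]

def SS (T : ℕ → E →L[ℂ] E) (j : ℕ) : E →L[ℂ] E := ∑ k ∈ range j, wt k • T k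

lemma sum_half (j : ℕ) : ∑ k ∈ range j, (1 / 2 : ℝ) ^ (k + 1) = 1 - (1 / 2) ^ j := by
  induction j with
  | zero => simp
  | succ n ih => rw [sum_range_succ, ih, pow_succ]; ring

theorem lemF (PP : Set (E →L[ℂ] E)) (hmul : ∀ p ∈ PP, ∀ q ∈ PP, p * q ∈ PP) (h1 : 1 ∈ PP) (C : ℝ)
    (hC : ∀ p ∈ PP, ‖p‖ ≤ C) (T : ℕ → E →L[ℂ] E) (hT : ∀ k, T k ∈ PP)
    (hcomm : ∀ j k, T j * T k = T k * T j) (X : Submodule ℂ E) (hXc : IsClosed (X : Set E))
    (hX : ∀ k, ∀ z ∈ X, T k z ∈ X) (x : E) (hx : x ∈ X) (hxT : ∀ k, ‖T k x‖ ≤ (1 / 4 : ℝ) ^ k) :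
    ∃ y ∈ X, y - ∑' k, wt k • T k y = x := by
  have hC0 : 0 ≤ C := (norm_nonneg _).trans (hC 1 h1)
  have hr0 : ∀ j : ℕ, (0 : ℝ) ≤ 1 - (1 / 2) ^ j := fun j => by
    have : (1 / 2 : ℝ) ^ j ≤ 1 := pow_le_one₀ (by norm_num) (by norm_num)
    linarith
  have hr1 : ∀ j : ℕ, (1 : ℝ) - (1 / 2) ^ j < 1 := fun j => by
    have : (0 : ℝ) < (1 / 2) ^ j := by positivity
    linarith
  -- powers
  have hSn : ∀ (j n : ℕ), ∀ p ∈ PP, ‖(SS T j) ^ n * p‖ ≤ C * (1 - (1 / 2) ^ j) ^ n := by
    intro j n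
    induction n with
    | zero => intro p hp; simpa using hC p hp
    | succ n ih =>
      intro p hp
      have e1 : (SS T j) ^ (n + 1) * p = ∑ k ∈ range j, wt k • ((SS T j) ^ n * (T k * p)) := by
        rw [pow_succ, mul_assoc]
        conv_lhs =>
          rw [show SS T j * p = ∑ k ∈ range j, wt k • (T k * p) by
            unfold SS
            rw [sum_mul]
            exact sum_congr rfl (fun k _ => by rw [smul_mul_assoc])]
        rw [mul_sum]
        exact sum_congr rfl (fun k _ => by rw [mul_smul_comm])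
      rw [e1]
      refine (norm_sum_le _ _).trans ?_
      have : ∀ k ∈ range j, ‖wt k • ((SS T j) ^ n * (T k * p))‖ ≤
          (1 / 2 : ℝ) ^ (k + 1) * (C * (1 - (1 / 2) ^ j) ^ n) := by
        intro k _
        rw [norm_smul, wt_norm]
        exact mul_le_mul_of_nonneg_left (ih _ (hmul _ (hT k) _ hp)) (by positivity)
      refine (sum_le_sum this).trans ?_
      rw [← sum_mul, sum_half]
      apply le_of_eq
      ring
  have hSn1 : ∀ (j n : ℕ), ‖(SS T j) ^ n‖ ≤ C * (1 - (1 / 2) ^ j) ^ n := by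
    intro j n
    have := hSn j n 1 h1
    rwa [mul_one] at this
  have hgeo : ∀ j : ℕ, HasSum (fun n => C * (1 - (1 / 2 : ℝ) ^ j) ^ n) (C * 2 ^ j) := by
    intro j
    have := (hasSum_geometric_of_lt_one (hr0 j) (hr1 j)).mul_left C
    have e : C * (1 - (1 - (1 / 2 : ℝ) ^ j))⁻¹ = C * 2 ^ j := by
      rw [sub_sub_cancel]
      simp
    rw [e] at this
    exact this
  have hsum : ∀ j, Summable (fun n => (SS T j) ^ n) := fun j =>
    Summable.of_norm_bounded (hgeo j).summable (hSn1 j)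
  let V : ℕ → (E →L[ℂ] E) := fun j => ∑' n, (SS T j) ^ n
  have hVn : ∀ j, ‖V j‖ ≤ C * 2 ^ j := fun j => tsum_of_norm_bounded (hgeo j) (hSn1 j)
  have hVcomm : ∀ j (A : E →L[ℂ] E), A * SS T j = SS T j * A → A * V j = V j * A := by
    intro j A hA
    show A * (∑' n, (SS T j) ^ n) = (∑' n, (SS T j) ^ n) * A
    rw [← (hsum j).tsum_mul_left, ← (hsum j).tsum_mul_right]
    congr 1
    ext1 n
    exact (Commute.pow_right hA n)
  have hV1 : ∀ j, V j * (1 - SS T j) = 1 := by
    intro j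
    have e : V j = 1 + V j * SS T j := by
      show (∑' n, (SS T j) ^ n) = 1 + (∑' n, (SS T j) ^ n) * SS T j
      rw [← (hsum j).tsum_mul_right, (hsum j).tsum_eq_zero_add, pow_zero]
      congr 1
    rw [mul_sub, mul_one]
    nth_rw 1 [e]
    rw [add_sub_cancel_right]
  have hV2 : ∀ j, (1 - SS T j) * V j = 1 := by
    intro j
    rw [sub_mul, one_mul, hVcomm j (SS T j) rfl, ← hV1 j, mul_sub, mul_one]
  have hTS : ∀ k j, T k * SS T j = SS T j * T k := by
    intro k j
    unfold SS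
    rw [mul_sum, sum_mul]
    exact sum_congr rfl (fun i _ => by rw [mul_smul_comm, smul_mul_assoc, hcomm])
  have hVT : ∀ k j, T k * V j = V j * T k := fun k j => hVcomm j _ (hTS k j)
  have hdiff : ∀ j, V (j + 1) - V j = wt j • (V (j + 1) * V j * T j) := by
    intro j
    have e1 : V (j + 1) = V (j + 1) * ((1 - SS T j) * V j) := by rw [hV2, mul_one]
    have e2 : V j = V (j + 1) * (1 - SS T (j + 1)) * V j := by rw [hV1, one_mul]
    have e3 : SS T (j + 1) = SS T j + wt j • T j := by unfold SS; rw [sum_range_succ]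
    calc V (j + 1) - V j = V (j + 1) * ((1 - SS T j) * V j) -
          V (j + 1) * (1 - SS T (j + 1)) * V j := by rw [← e1, ← e2]
      _ = V (j + 1) * (wt j • T j) * V j := by rw [e3]; noncomm_ring
      _ = wt j • (V (j + 1) * V j * T j) := by
          rw [mul_smul_comm, smul_mul_assoc, mul_assoc, hVT, mul_assoc]
  have hSX : ∀ j, ∀ z ∈ X, SS T j z ∈ X := by
    intro j z hz
    unfold SS
    rw [_root_.sum_apply]
    exact X.sum_mem (fun k _ => by
      rw [smul_apply]
      exact X.smul_mem _ (hX k z hz))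
  have hSnX : ∀ j n, ∀ z ∈ X, ((SS T j) ^ n) z ∈ X := by
    intro j n
    induction n with
    | zero => intro z hz; simpa using hz
    | succ n ih =>
      intro z hz
      rw [pow_succ]
      exact ih _ (hSX j z hz)
  have hVX : ∀ j, V j x ∈ X := by
    intro j
    have hs := (hsum j).hasSum.mapL (ContinuousLinearMap.apply ℂ E x)
    exact hXc.mem_of_tendsto hs (Eventually.of_forall fun s => X.sum_mem fun n _ => hSnX j n x hx)
  have hcauchy : CauchySeq (fun j => V j x) := by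
    apply cauchySeq_of_le_geometric (1 / 2) (C * C) (by norm_num)
    intro j
    rw [dist_comm, dist_eq_norm, ← sub_apply, hdiff, smul_apply, norm_smul, wt_norm]
    have h2 : ‖(V (j + 1) * V j * T j) x‖ ≤ (C * 2 ^ (j + 1)) * ((C * 2 ^ j) * (1 / 4) ^ j) := by
      show ‖V (j + 1) (V j (T j x))‖ ≤ _
      refine ((V (j + 1)).le_opNorm _).trans ?_
      apply mul_le_mul (hVn _) _ (norm_nonneg _) (by positivity)
      refine ((V j).le_opNorm _).trans ?_
      exact mul_le_mul (hVn _) (hxT j) (norm_nonneg _) (by positivity)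
    refine (mul_le_mul_of_nonneg_left h2 (by positivity)).trans (le_of_eq ?_)
    have e1 : (1 / 4 : ℝ) ^ j = (1 / 2) ^ j * (1 / 2) ^ j := by rw [← mul_pow]; norm_num
    have e2 : (1 / 2 : ℝ) ^ j * 2 ^ j = 1 := by rw [← mul_pow]; norm_num
    rw [e1, pow_succ, pow_succ]
    linear_combination (C * C * (1 / 2) ^ j * ((1 / 2 : ℝ) ^ j * 2 ^ j) + C * C * (1 / 2) ^ j) * e2
  obtain ⟨y, hy⟩ := cauchySeq_tendsto_of_complete hcauchy
  have hwsum : Summable (fun k => wt k • T k) := by
    have hg : Summable (fun k : ℕ => (1 / 2 : ℝ) ^ (k + 1) * C) := by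
      have h := (summable_geometric_of_lt_one (by norm_num : (0:ℝ) ≤ 1 / 2) (by norm_num)).mul_left
        (C / 2)
      refine h.congr (fun k => ?_)
      rw [pow_succ]; ring
    apply Summable.of_norm_bounded hg
    intro k
    rw [norm_smul, wt_norm]
    exact mul_le_mul_of_nonneg_left (hC _ (hT k)) (by positivity)
  have hSlim : Tendsto (fun j => SS T j) atTop (𝓝 (∑' k, wt k • T k)) :=
    hwsum.hasSum.tendsto_sum_nat
  refine ⟨y, hXc.mem_of_tendsto hy (Eventually.of_forall hVX), ?_⟩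
  have hlim : Tendsto (fun j => V j x - SS T j (V j x)) atTop
      (𝓝 (y - (∑' k, wt k • T k) y)) := by
    apply hy.sub
    have h4 := ((isBoundedBilinearMap_apply (𝕜 := ℂ) (E := E) (F := E)).continuous.tendsto
      ((∑' k, wt k • T k), y)).comp (hSlim.prodMk_nhds hy)
    exact h4
  have hconst : ∀ j, V j x - SS T j (V j x) = x := by
    intro j
    have := congrArg (fun A : E →L[ℂ] E => A x) (hV2 j)
    simpa using this
  simp only [hconst] at hlim
  have h3 := tendsto_nhds_unique hlim tendsto_const_nhds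
  rw [← h3]
  congr 1
  exact ((ContinuousLinearMap.apply ℂ E y).map_tsum hwsum).symm

end

end Pool.Agent.W665.IDM
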