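import Pool.Agent.W665.IDM.Dec
import Pool.Agent.W665.IDM.LemF

set_option autoImplicit false

noncomputable section

namespace Pool.Agent.W665.IDM

open Finset Filter Topology

variable {G : Type} [Group G] {I : Submodule ℂ (L1 G)} {d : ℕ} (D : IData G I d)

lemma hasSum_wt : HasSum wt 1 := by
  have h := (hasSum_geometric_of_lt_one (by norm_num : (0:ℝ) ≤ 1 / 2) (by norm_num)).mul_left (1 / 2)
  have e : (1 / 2 : ℝ) * (1 - 1 / 2)⁻¹ = 1 := by norm_num
  rw [e] at h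
  have h2 := h.mapL Complex.ofRealCLM
  simp only [Complex.ofRealCLM_apply, Complex.ofReal_one] at h2
  refine h2.congr_fun ?_ |> fun z => z
  intro k
  unfold wt
  rw [pow_succ]
  congr 1
  ring

lemma summable_half : Summable (fun k : ℕ => (1 / 2 : ℝ) ^ (k + 1)) := by
  have h := (summable_geometric_of_lt_one (by norm_num : (0:ℝ) ≤ 1 / 2) (by norm_num)).mul_left (1/2)
  refine h.congr (fun k => ?_)
  rw [pow_succ]; ring

lemma wt_summable {E : Type*} [NormedAddCommGroup E] [NormedSpace ℂ E] [CompleteSpace E]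
    (v : ℕ → E) (C : ℝ) (h : ∀ k, ‖v k‖ ≤ C) : Summable (fun k => wt k • v k) := by
  apply Summable.of_norm_bounded (summable_half.mul_right C)
  intro k
  rw [norm_smul, wt_norm]
  exact mul_le_mul_of_nonneg_left (h k) (by positivity)

namespace IData

def PP : Set (EE G d →L[ℂ] EE G d) := {A | ∃ s t : L1 G, ‖s‖ ≤ 1 ∧ ‖t‖ ≤ 1 ∧ A = D.P s * D.Q t}

lemma PP_mul : ∀ p ∈ D.PP, ∀ q ∈ D.PP, p * q ∈ D.PP := by
  rintro p ⟨s, t, hs, ht, rfl⟩ q ⟨s', t', hs', ht', rfl⟩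
  refine ⟨conv s s', conv t' t, ?_, ?_, ?_⟩
  · refine (conv_norm_le _ _).trans ?_
    exact mul_le_one₀ hs (norm_nonneg _) hs'
  · refine (conv_norm_le _ _).trans ?_
    exact mul_le_one₀ ht' (norm_nonneg _) ht
  · ext1 F
    show D.P s (D.Q t (D.P s' (D.Q t' F))) = D.P (conv s s') (D.Q (conv t' t) F)
    rw [← P_mul, ← Q_mul, PQ_comm D s' t]

lemma PP_one : (1 : EE G d →L[ℂ] EE G d) ∈ D.PP := by
  refine ⟨delta 1, delta 1, by rw [delta_norm], by rw [delta_norm], ?_⟩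
  ext1 F
  show F = D.P (delta 1) (D.Q (delta 1) F)
  rw [P_one, Q_one]

lemma PP_norm : ∀ p ∈ D.PP, ‖p‖ ≤ D.C1 * D.C1 := by
  rintro p ⟨s, t, hs, ht, rfl⟩
  refine (norm_mul_le _ _).trans ?_
  have h1 : ‖D.P s‖ ≤ D.C1 := (D.P_norm s).trans (by
    have := mul_le_mul_of_nonneg_left hs D.C1_nonneg
    rwa [mul_one] at this)
  have h2 : ‖D.Q t‖ ≤ D.C1 := (D.Q_norm t).trans (by
    have := mul_le_mul_of_nonneg_left ht D.C1_nonneg
    rwa [mul_one] at this)
  exact mul_le_mul h1 h2 (norm_nonneg _) D.C1_nonneg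

section

variable {κ : L1 G} (kpos : ∀ x, κ x = (‖κ x‖ : ℂ)) (kone : ‖κ‖ = 1)

lemma bd_le (n : ℕ) : bd (1 - 1 / ((n : ℝ) + 2) ^ 2) (1 / ((n : ℝ) + 2)) ≤ 5 / ((n : ℝ) + 2) := by
  unfold bd
  have hn : (0 : ℝ) ≤ n := Nat.cast_nonneg n
  set a : ℝ := (n : ℝ) + 2 with ha
  have ha2 : 2 ≤ a := by linarith
  have ha0 : 0 < a := by linarith
  have h1 : 1 / a ^ 2 ≤ 1 / 4 := by
    apply one_div_le_one_div_of_le (by norm_num)
    nlinarith
  have ht : 3 / 4 ≤ 1 - 1 / a ^ 2 := by linarith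
  have ht2 : 1 / 2 ≤ (1 - 1 / a ^ 2) ^ 2 := by nlinarith
  have e : 2 * (1 - (1 - 1 / a ^ 2)) / (1 - 1 / a ^ 2) ^ 2 / (1 / a) =
      (2 / a) / (1 - 1 / a ^ 2) ^ 2 := by
    have h3 : (1 - 1 / a ^ 2) ^ 2 ≠ 0 := by positivity
    rw [sub_sub_cancel]
    field_simp
  rw [e]
  have h4 : (2 / a) / (1 - 1 / a ^ 2) ^ 2 ≤ (2 / a) / (1 / 2) :=
    div_le_div_of_nonneg_left (by positivity) (by norm_num) ht2
  have h5 : (2 / a) / (1 / 2) = 4 / a := by ring
  rw [h5] at h4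
  have h6 : 1 / a + 4 / a = 5 / a := by ring
  linarith

include kpos kone in
lemma stageA (F : EE G d) (hF : F ∈ X I d) (B : ℝ)
    (hB0 : 0 ≤ B) (hB : ∀ i j z, ‖F i j z‖ ≤ B * ‖κ z‖) (ε : ℝ) (hε : 0 < ε) :
    ∃ (s : L1 G) (t : ℝ), Hyp κ s t ∧ ‖D.P s (D.Q s F)‖ ≤ ε := by
  obtain ⟨n, hn⟩ := exists_nat_gt (D.C2 B * 5 / ε)
  have hn0 : (0 : ℝ) ≤ n := Nat.cast_nonneg n
  have ha0 : (0 : ℝ) < (n : ℝ) + 2 := by linarith
  have ht0 : (0 : ℝ) < 1 - 1 / ((n : ℝ) + 2) ^ 2 := by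
    have : 1 / ((n : ℝ) + 2) ^ 2 ≤ 1 / 4 := by
      apply one_div_le_one_div_of_le (by norm_num)
      nlinarith
    linarith
  have ht1 : 1 - 1 / ((n : ℝ) + 2) ^ 2 < 1 := by
    have : 0 < 1 / ((n : ℝ) + 2) ^ 2 := by positivity
    linarith
  obtain ⟨s, H⟩ := exists_hyp κ kpos kone _ ht0 ht1
  refine ⟨s, _, H, ?_⟩
  refine (D.PQ_bound H F hF B hB0 hB (1 / ((n : ℝ) + 2)) (by positivity)).trans ?_
  refine (mul_le_mul_of_nonneg_left (bd_le n) (D.C2_nonneg B hB0)).trans ?_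
  rw [← mul_div_assoc, div_le_iff₀ ha0]
  rw [div_lt_iff₀ hε] at hn
  nlinarith

include kpos kone in
lemma stageB (s : ℕ → L1 G) (t : ℕ → ℝ) (H : ∀ k, Hyp κ (s k) (t k)) (y : EE G d) (ε : ℝ)
    (hε : 0 < ε) : ∃ (u : L1 G) (t' : ℝ), Hyp κ u t' ∧
      ‖D.Q u (∑' k, wt k • D.P (s k) (y - D.Q (s k) y))‖ ≤ ε := by
  have hn0 : ∀ n : ℕ, (0 : ℝ) ≤ n := fun n => Nat.cast_nonneg n
  have ht0 : ∀ n : ℕ, (0 : ℝ) < 1 - 1 / ((n : ℝ) + 2) := by
    intro n
    have := hn0 n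
    have : 1 / ((n : ℝ) + 2) ≤ 1 / 2 := by
      apply one_div_le_one_div_of_le (by norm_num)
      linarith
    linarith
  have ht1 : ∀ n : ℕ, 1 - 1 / ((n : ℝ) + 2) < 1 := by
    intro n
    have := hn0 n
    have : 0 < 1 / ((n : ℝ) + 2) := by positivity
    linarith
  choose u Hu using fun n => exists_hyp κ kpos kone _ (ht0 n) (ht1 n)
  have hPn : ∀ k, ‖D.P (s k)‖ ≤ D.C1 := fun k => (D.P_norm _).trans (by
    rw [(H k).sone, mul_one])
  have hQn : ∀ k, ‖D.Q (s k)‖ ≤ D.C1 := fun k => (D.Q_norm _).trans (by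
    rw [(H k).sone, mul_one])
  have hsum : Summable (fun k => wt k • D.P (s k) (y - D.Q (s k) y)) := by
    apply wt_summable _ (D.C1 * (‖y‖ + D.C1 * ‖y‖))
    intro k
    refine ((D.P (s k)).le_opNorm _).trans ?_
    refine mul_le_mul (hPn k) ?_ (norm_nonneg _) D.C1_nonneg
    refine (norm_sub_le _ _).trans ?_
    exact add_le_add_right (((D.Q (s k)).le_opNorm _).trans
      (mul_le_mul_of_nonneg_right (hQn k) (norm_nonneg _))) _
  have hterm : ∀ n k, D.Q (u n) (wt k • D.P (s k) (y - D.Q (s k) y)) =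
      wt k • D.P (s k) (D.Q (conv (u n) (delta 1 - s k)) y) := by
    intro n k
    rw [map_smul, ← PQ_comm, map_sub, Q_mul, (H k).comm2 (Hu n)]
    congr 2
    rw [map_sub, conv_one, ← QF_eq, ← QF_eq, ← QF_eq, ← map_sub]
  have hbound : ∀ n k, ‖wt k • D.P (s k) (D.Q (conv (u n) (delta 1 - s k)) y)‖ ≤
      (1 / 2 : ℝ) ^ (k + 1) * (D.C1 * (D.C1 * ‖conv (u n) (delta 1 - s k)‖ * ‖y‖)) := by
    intro n k
    rw [norm_smul, wt_norm]
    apply mul_le_mul_of_nonneg_left _ (by positivity)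
    refine ((D.P (s k)).le_opNorm _).trans ?_
    refine mul_le_mul (hPn k) ?_ (norm_nonneg _) D.C1_nonneg
    exact ((D.Q _).le_opNorm _).trans (mul_le_mul_of_nonneg_right (D.Q_norm _) (norm_nonneg _))
  have hlim : Tendsto (fun n => ∑' k, wt k • D.P (s k) (D.Q (conv (u n) (delta 1 - s k)) y)) atTop
      (𝓝 (∑' _ : ℕ, (0 : EE G d))) := by
    apply tendsto_tsum_of_dominated_convergence
      (bound := fun k => (1 / 2 : ℝ) ^ (k + 1) * (D.C1 * (D.C1 * 2 * ‖y‖)))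
      (summable_half.mul_right _)
    · intro k
      rw [tendsto_zero_iff_norm_tendsto_zero]
      have hb2 : ∀ n : ℕ, ‖wt k • D.P (s k) (D.Q (conv (u n) (delta 1 - s k)) y)‖ ≤
          ((1 / 2 : ℝ) ^ (k + 1) * (D.C1 * (D.C1 * (t k / (1 - t k) * 2) * ‖y‖))) *
            (1 / ((n : ℝ) + 2)) := by
        intro n
        refine (hbound n k).trans ?_
        have h1 := (Hu n).near (H k)
        rw [sub_sub_cancel] at h1
        have h2 : D.C1 * (D.C1 * ‖conv (u n) (delta 1 - s k)‖ * ‖y‖) ≤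
            D.C1 * (D.C1 * (t k / (1 - t k) * (2 * (1 / ((n : ℝ) + 2)))) * ‖y‖) := by
          apply mul_le_mul_of_nonneg_left _ D.C1_nonneg
          apply mul_le_mul_of_nonneg_right _ (norm_nonneg _)
          exact mul_le_mul_of_nonneg_left h1 D.C1_nonneg
        refine (mul_le_mul_of_nonneg_left h2 (by positivity)).trans (le_of_eq ?_)
        ring
      have hz : Tendsto (fun n : ℕ => ((1 / 2 : ℝ) ^ (k + 1) *
          (D.C1 * (D.C1 * (t k / (1 - t k) * 2) * ‖y‖))) * (1 / ((n : ℝ) + 2))) atTop (𝓝 0) := by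
        have h3 : Tendsto (fun n : ℕ => 1 / ((n : ℝ) + 2)) atTop (𝓝 0) := by
          have h4 := (tendsto_one_div_add_atTop_nhds_zero_nat (𝕜 := ℝ)).comp (tendsto_add_atTop_nat 1)
          refine h4.congr (fun n => ?_)
          simp only [Function.comp_apply]
          push_cast
          congr 1
          ring
        have h5 := h3.const_mul ((1 / 2 : ℝ) ^ (k + 1) *
          (D.C1 * (D.C1 * (t k / (1 - t k) * 2) * ‖y‖)))
        rwa [mul_zero] at h5
      exact squeeze_zero (fun n => norm_nonneg _) hb2 hz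
    · refine Eventually.of_forall fun n k => (hbound n k).trans ?_
      apply mul_le_mul_of_nonneg_left _ (by positivity)
      apply mul_le_mul_of_nonneg_left _ D.C1_nonneg
      apply mul_le_mul_of_nonneg_right _ (norm_nonneg _)
      apply mul_le_mul_of_nonneg_left _ D.C1_nonneg
      refine (conv_norm_le _ _).trans ?_
      rw [(Hu n).sone, one_mul]
      refine (norm_sub_le _ _).trans ?_
      rw [delta_norm, (H k).sone]
      norm_num
  rw [tsum_zero] at hlim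
  have hlim2 := hlim.norm
  rw [norm_zero] at hlim2
  obtain ⟨n, hn⟩ := (hlim2.eventually (gt_mem_nhds hε)).exists
  refine ⟨u n, _, Hu n, ?_⟩
  rw [(D.Q (u n)).map_tsum hsum]
  simp_rw [hterm]
  exact hn.le

include kpos kone in
theorem tau_mem (F : EE G d) (hF : F ∈ X I d) (B : ℝ)
    (hB0 : 0 ≤ B) (hB : ∀ i j z, ‖F i j z‖ ≤ B * ‖κ z‖) : D.tau F ∈ I2 I := by
  choose s t H hs using fun k : ℕ => D.stageA kpos kone F hF B hB0 hB ((1 / 4 : ℝ) ^ k) (by positivity)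
  obtain ⟨y, hyX, hy⟩ := lemF D.PP D.PP_mul D.PP_one (D.C1 * D.C1) D.PP_norm
    (fun k => D.P (s k) * D.Q (s k)) (fun k => ⟨s k, s k, (H k).sone.le, (H k).sone.le, rfl⟩)
    (fun j k => by
      ext1 F
      show D.P (s j) (D.Q (s j) (D.P (s k) (D.Q (s k) F))) =
        D.P (s k) (D.Q (s k) (D.P (s j) (D.Q (s j) F)))
      rw [← PQ_comm D (s k) (s j), ← PQ_comm D (s j) (s k), P_mul, P_mul, Q_mul, Q_mul,
        (H j).comm2 (H k)])
    (X I d) D.X_closed (fun k z hz => D.P_X _ _ (D.Q_X _ _ hz)) F hF hs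
  have hPn : ∀ k, ‖D.P (s k)‖ ≤ D.C1 := fun k => (D.P_norm _).trans (by
    rw [(H k).sone, mul_one])
  have hQn : ∀ k, ‖D.Q (s k)‖ ≤ D.C1 := fun k => (D.Q_norm _).trans (by
    rw [(H k).sone, mul_one])
  -- the first sum
  have hσs : Summable (fun k => wt k • s k) := wt_summable _ 1 (fun k => (H k).sone.le)
  set σ : L1 G := ∑' k, wt k • s k with hσ
  have heps1 : ∀ (s : L1 G) (t : ℝ), Hyp κ s t → eps s = (1 : ℂ) := by
    intro s t H
    rw [eps_eq]
    have := pr_eq_er s H.spos (fun _ => 1)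
    rw [er_const, H.sone] at this
    simpa using this
  have hepsσ : eps σ = (1 : ℂ) := by
    rw [hσ, (eps : L1 G →L[ℂ] ℂ).map_tsum hσs]
    have : ∀ k, eps (wt k • s k) = wt k := fun k => by
      rw [map_smul, heps1 _ _ (H k), smul_eq_mul, mul_one]
    simp_rw [this]
    exact hasSum_wt.tsum_eq
  have hPσ : D.P σ y = ∑' k, wt k • D.P (s k) y := by
    rw [← PF_eq, hσ, (D.PF y).map_tsum hσs]
    simp_rw [map_smul, PF_eq]
  have hs1 : Summable (fun k => wt k • D.P (s k) y) := by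
    apply wt_summable _ (D.C1 * ‖y‖)
    intro k
    exact ((D.P (s k)).le_opNorm _).trans (mul_le_mul_of_nonneg_right (hPn k) (norm_nonneg _))
  have hs2 : Summable (fun k => wt k • D.P (s k) (D.Q (s k) y)) := by
    apply wt_summable _ (D.C1 * (D.C1 * ‖y‖))
    intro k
    refine ((D.P (s k)).le_opNorm _).trans (mul_le_mul (hPn k) ?_ (norm_nonneg _) D.C1_nonneg)
    exact ((D.Q (s k)).le_opNorm _).trans (mul_le_mul_of_nonneg_right (hQn k) (norm_nonneg _))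
  set l := ∑' k, wt k • D.P (s k) (y - D.Q (s k) y) with hl
  have hl2 : l = D.P σ y - ∑' k, wt k • D.P (s k) (D.Q (s k) y) := by
    rw [hPσ, hl, ← hs1.tsum_sub hs2]
    congr 1
    ext1 k
    rw [map_sub, smul_sub]
  have hFl : F = (y - D.P σ y) + l := by
    rw [hl2]
    have hy' : y - ∑' k, wt k • D.P (s k) (D.Q (s k) y) = F := hy
    rw [← hy']
    abel
  have hlX : l ∈ X I d := by
    have : l = F - (y - D.P σ y) := by rw [hFl]; abel
    rw [this]
    exact (X I d).sub_mem hF ((X I d).sub_mem hyX (D.P_X _ _ hyX))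
  have ht1 : D.tau (y - D.P σ y) ∈ I2 I := by
    have h1 := (I2 I).neg_mem (D.tau_P σ y hyX)
    rw [hepsσ, one_smul, neg_sub] at h1
    rwa [map_sub]
  -- the second part
  choose u t' Hu hu using fun k : ℕ => D.stageB kpos kone s t H y ((1 / 4 : ℝ) ^ k) (by positivity)
  obtain ⟨z, hzX, hz⟩ := lemF D.PP D.PP_mul D.PP_one (D.C1 * D.C1) D.PP_norm
    (fun k => D.Q (u k)) (fun k => ⟨delta 1, u k, by rw [delta_norm], (Hu k).sone.le, by
      ext1 F
      show D.Q (u k) F = D.P (delta 1) (D.Q (u k) F)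
      rw [P_one]⟩)
    (fun j k => by
      ext1 F
      show D.Q (u j) (D.Q (u k) F) = D.Q (u k) (D.Q (u j) F)
      rw [Q_mul, Q_mul, (Hu j).comm2 (Hu k)])
    (X I d) D.X_closed (fun k z hz => D.Q_X _ _ hz) l hlX hu
  have hσs' : Summable (fun k => wt k • u k) := wt_summable _ 1 (fun k => (Hu k).sone.le)
  set σ' : L1 G := ∑' k, wt k • u k with hσ'
  have hepsσ' : eps σ' = (1 : ℂ) := by
    rw [hσ', (eps : L1 G →L[ℂ] ℂ).map_tsum hσs']
    have : ∀ k, eps (wt k • u k) = wt k := fun k => by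
      rw [map_smul, heps1 _ _ (Hu k), smul_eq_mul, mul_one]
    simp_rw [this]
    exact hasSum_wt.tsum_eq
  have hQσ : D.Q σ' z = ∑' k, wt k • D.Q (u k) z := by
    rw [← QF_eq, hσ', (D.QF z).map_tsum hσs']
    simp_rw [map_smul, QF_eq]
  have ht2 : D.tau l ∈ I2 I := by
    have h1 := (I2 I).neg_mem (D.tau_Q σ' z hzX)
    rw [hepsσ', one_smul, neg_sub, ← map_sub, hQσ, hz] at h1
    exact h1
  rw [hFl, map_add]
  exact (I2 I).add_mem ht1 ht2

end

end IData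

end Pool.Agent.W665.IDM
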