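import Pool.Agent.W665.IDM.Est

set_option autoImplicit false

noncomputable section

namespace Pool.Agent.W665.IDM

variable {G : Type}

lemma pos_of (f : L1 G) (hn : ‖f‖ ≤ 1) (h1 : pr (fun _ => (1 : ℂ)) f = 1) :
    (∀ x, f x = (‖f x‖ : ℂ)) ∧ ‖f‖ = 1 := by
  have hs := sn f
  have hsc : Summable (fun x => f x * (1 : ℂ)) := pr_summable _ 1 (fun _ => by simp) f
  have hre : ∑' x, (f x).re = 1 := by
    have h2 := congrArg Complex.re h1
    unfold pr at h2
    rw [Complex.re_tsum hsc] at h2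
    simpa using h2
  have hsre : Summable (fun x => (f x).re) := by
    have := hsc.mapL Complex.reCLM
    simpa using this
  have hle : ∑' x, (f x).re ≤ ∑' x, ‖f x‖ :=
    hsre.tsum_le_tsum (fun x => Complex.re_le_norm _) hs
  have hn1 : ‖f‖ = 1 := by
    apply le_antisymm hn
    rw [norm_eq, ← hre]
    exact hle
  refine ⟨?_, hn1⟩
  have hsub : Summable (fun x => ‖f x‖ - (f x).re) := hs.sub hsre
  have hz : ∑' x, (‖f x‖ - (f x).re) = 0 := by
    rw [hs.tsum_sub hsre, hre, ← norm_eq, hn1, sub_self]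
  intro x
  have h3 : ‖f x‖ - (f x).re = 0 := by
    have h4 := hsub.le_tsum x (fun y _ => sub_nonneg.2 (Complex.re_le_norm (f y)))
    rw [hz] at h4
    exact le_antisymm h4 (sub_nonneg.2 (Complex.re_le_norm (f x)))
  have h5 : (f x).re = ‖f x‖ := by linarith
  apply Complex.ext
  · rw [Complex.ofReal_re]; exact h5
  · rw [Complex.ofReal_im]
    have h6 := Complex.sq_norm_sub_sq_re (f x)
    rw [h5] at h6
    have h7 : (f x).im ^ 2 = 0 := by linarith
    exact pow_eq_zero_iff (two_ne_zero) |>.1 h7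

variable [Group G]

lemma eps_conv (a b : L1 G) : pr (fun _ => (1 : ℂ)) (conv a b) =
    pr (fun _ => (1 : ℂ)) a * pr (fun _ => (1 : ℂ)) b := by
  rw [pr_conv _ 1 (fun _ => by simp)]
  have := pr_mul_right b (fun _ => (1 : ℂ)) (pr (fun _ => (1 : ℂ)) a)
  simp only [one_mul] at this
  rw [this, mul_comm]

lemma fix_zero (κ D : L1 G) (hκ : ‖κ‖ = 1) (t : ℝ) (ht0 : 0 < t) (ht1 : t < 1)
    (h : D = ((t : ℝ) : ℂ) • conv κ D) : D = 0 := by
  have h1 : ‖D‖ ≤ t * ‖D‖ := by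
    conv_lhs => rw [h]
    rw [norm_smul, Complex.norm_real, Real.norm_eq_abs, abs_of_pos ht0]
    apply mul_le_mul_of_nonneg_left _ ht0.le
    have := conv_norm_le κ D
    rwa [hκ, one_mul] at this
  have h2 := norm_nonneg D
  rw [← norm_eq_zero]
  nlinarith

lemma exists_hyp (κ : L1 G) (kpos : ∀ x, κ x = (‖κ x‖ : ℂ)) (kone : ‖κ‖ = 1) (t : ℝ)
    (ht0 : 0 < t) (ht1 : t < 1) : ∃ s, Hyp κ s t := by
  have hx : ‖((t : ℝ) : ℂ) • conv κ‖ < 1 := by
    rw [norm_smul, Complex.norm_real, Real.norm_eq_abs, abs_of_pos ht0]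
    have := conv_norm κ
    rw [kone] at this
    nlinarith
  let u := Units.oneSub (((t : ℝ) : ℂ) • conv κ) hx
  let s : L1 G := ((1 - t : ℝ) : ℂ) • ((↑u⁻¹ : L1 G →L[ℂ] L1 G) (delta 1))
  have hu : (↑u : L1 G →L[ℂ] L1 G) s = ((1 - t : ℝ) : ℂ) • delta 1 := by
    show (↑u : L1 G →L[ℂ] L1 G) (((1 - t : ℝ) : ℂ) • ((↑u⁻¹ : L1 G →L[ℂ] L1 G) (delta 1))) = _
    rw [map_smul, ← ContinuousLinearMap.mul_apply, Units.mul_inv, one_apply_eq_self]
  have hu2 : (↑u : L1 G →L[ℂ] L1 G) s = s - ((t : ℝ) : ℂ) • conv κ s := by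
    rw [Units.val_oneSub]
    rfl
  have eq1 : s = ((1 - t : ℝ) : ℂ) • delta 1 + ((t : ℝ) : ℂ) • conv κ s := by
    rw [← hu, hu2]
    abel
  have hcomm : conv s κ = conv κ s := by
    have e1 : conv s κ = ((1 - t : ℝ) : ℂ) • κ + ((t : ℝ) : ℂ) • conv κ (conv s κ) := by
      conv_lhs => rw [eq1]
      rw [map_add, map_smul, map_smul, add_apply, smul_apply, smul_apply, one_conv, conv_assoc]
    have e2 : conv κ s = ((1 - t : ℝ) : ℂ) • κ + ((t : ℝ) : ℂ) • conv κ (conv κ s) := by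
      conv_lhs => rw [eq1]
      rw [map_add, map_smul, map_smul, conv_one]
    rw [← sub_eq_zero]
    apply fix_zero κ _ kone t ht0 ht1
    rw [map_sub, smul_sub]
    conv_lhs => rw [e1, e2]
    abel
  have hn : ‖s‖ ≤ 1 := by
    have h1 : ‖s‖ ≤ (1 - t) + t * ‖s‖ := by
      conv_lhs => rw [eq1]
      refine (norm_add_le _ _).trans ?_
      rw [norm_smul, norm_smul, delta_norm, Complex.norm_real, Complex.norm_real,
        Real.norm_eq_abs, Real.norm_eq_abs, abs_of_pos ht0, abs_of_pos (by linarith : 0 < 1 - t),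
        mul_one]
      have := conv_norm_le κ s
      rw [kone, one_mul] at this
      have := mul_le_mul_of_nonneg_left this ht0.le
      linarith
    nlinarith
  have hκe : pr (fun _ => (1 : ℂ)) κ = 1 := by
    have := pr_eq_er κ kpos (fun _ => 1)
    rw [er_const, kone] at this
    simpa using this
  have he : pr (fun _ => (1 : ℂ)) s = 1 := by
    have h1 : pr (fun _ => (1 : ℂ)) s = ((1 - t : ℝ) : ℂ) + ((t : ℝ) : ℂ) *
        pr (fun _ => (1 : ℂ)) s := by
      conv_lhs => rw [eq1]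
      rw [pr_add _ 1 (fun _ => by simp), pr_smul _ 1 (fun _ => by simp),
        pr_smul _ 1 (fun _ => by simp), pr_delta, eps_conv, hκe]
      ring
    have ht : (((1 - t : ℝ)) : ℂ) ≠ 0 := by
      exact_mod_cast (by linarith : (1 - t) ≠ 0)
    have h2 : (((1 - t : ℝ)) : ℂ) * (pr (fun _ => (1 : ℂ)) s - 1) = 0 := by
      push_cast at h1 ⊢
      linear_combination h1
    have h3 := (mul_eq_zero.1 h2).resolve_left ht
    exact sub_eq_zero.1 h3
  obtain ⟨sp, s1⟩ := pos_of s hn he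
  exact ⟨s, kpos, kone, sp, s1, ht0, ht1, eq1, by rw [hcomm]; exact eq1⟩

variable {κ s s' : L1 G} {t t' : ℝ}

lemma Hyp.comm (H : Hyp κ s t) : conv s κ = conv κ s := by
  have h := H.eq1.symm.trans H.eq2
  have h1 := add_left_cancel h
  have ht : ((t : ℝ) : ℂ) ≠ 0 := by exact_mod_cast H.t0.ne'
  exact (smul_right_injective _ ht h1).symm

lemma Hyp.comm2 (H : Hyp κ s t) (H' : Hyp κ s' t') : conv s s' = conv s' s := by
  have e1 : conv s s' = ((1 - t : ℝ) : ℂ) • s' + ((t : ℝ) : ℂ) • conv κ (conv s s') := by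
    conv_lhs => rw [H.eq1]
    rw [map_add, map_smul, map_smul, add_apply, smul_apply, smul_apply, one_conv, conv_assoc]
  have e2 : conv s' s = ((1 - t : ℝ) : ℂ) • s' + ((t : ℝ) : ℂ) • conv κ (conv s' s) := by
    conv_lhs => rw [H.eq1]
    rw [map_add, map_smul, map_smul, conv_one, ← conv_assoc, H'.comm, conv_assoc]
  rw [← sub_eq_zero]
  apply fix_zero κ _ H.kone t H.t0 H.t1
  rw [map_sub, smul_sub]
  conv_lhs => rw [e1, e2]
  abel

lemma Hyp.near (H : Hyp κ s t) (H' : Hyp κ s' t') :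
    ‖conv s (delta 1 - s')‖ ≤ t' / (1 - t') * (2 * (1 - t)) := by
  have ht' : (0:ℝ) < 1 - t' := by linarith [H'.t1]
  have ht : (0:ℝ) < 1 - t := by linarith [H.t1]
  have hc' : (((1 - t' : ℝ)) : ℂ) ≠ 0 := by exact_mod_cast ht'.ne'
  have e1 : delta 1 - s' = ((t' / (1 - t') : ℝ) : ℂ) • (s' - conv κ s') := by
    have h1 : ((1 - t' : ℝ) : ℂ) • (delta 1 - s') = ((t' : ℝ) : ℂ) • (s' - conv κ s') := by
      have h2 : ((1 - t' : ℝ) : ℂ) • (delta 1 : L1 G) = s' - ((t' : ℝ) : ℂ) • conv κ s' := by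
        rw [eq_sub_iff_add_eq]
        exact H'.eq1.symm
      rw [smul_sub, h2, smul_sub]
      have h3 : ((1 - t' : ℝ) : ℂ) • s' = s' - ((t' : ℝ) : ℂ) • s' := by
        push_cast
        rw [sub_smul, one_smul]
      rw [h3]
      abel
    have h4 : ((t' / (1 - t') : ℝ) : ℂ) = (((1 - t' : ℝ)) : ℂ)⁻¹ * ((t' : ℝ) : ℂ) := by
      push_cast
      field_simp
    rw [h4, mul_smul, ← h1, smul_smul, inv_mul_cancel₀ hc', one_smul]
  have e2 : conv s (s' - conv κ s') = conv (s - conv s κ) s' := by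
    rw [map_sub, map_sub, sub_apply, conv_assoc]
  have e3 : s - conv s κ = ((1 - t : ℝ) : ℂ) • (delta 1 - conv s κ) := by
    have h3 : ((1 - t : ℝ) : ℂ) • conv s κ = conv s κ - ((t : ℝ) : ℂ) • conv s κ := by
      push_cast
      rw [sub_smul, one_smul]
    rw [smul_sub, h3]
    refine (congrArg (fun z => z - conv s κ) H.eq2).trans ?_
    show ((1 - t : ℝ) : ℂ) • delta 1 + ((t : ℝ) : ℂ) • conv s κ - conv s κ = _
    abel
  have n1 : ‖s - conv s κ‖ ≤ (1 - t) * 2 := by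
    rw [e3, norm_smul, Complex.norm_real, Real.norm_eq_abs, abs_of_pos ht]
    apply mul_le_mul_of_nonneg_left _ ht.le
    refine (norm_sub_le _ _).trans ?_
    have := conv_norm_le s κ
    rw [H.sone, H.kone] at this
    rw [delta_norm]
    linarith
  rw [e1, map_smul, e2, norm_smul, Complex.norm_real, Real.norm_eq_abs,
    abs_of_nonneg (div_nonneg H'.t0.le ht'.le)]
  apply mul_le_mul_of_nonneg_left _ (div_nonneg H'.t0.le ht'.le)
  refine (conv_norm_le _ _).trans ?_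
  rw [H'.sone, mul_one]
  linarith

end Pool.Agent.W665.IDM
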