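import Pool.Agent.W665.IDM.Data

set_option autoImplicit false

noncomputable section

namespace Pool.Agent.W665.IDM

open Finset

variable {G : Type} [Group G]

/-- span of products -/
def I2 (I : Submodule ℂ (L1 G)) : Submodule ℂ (L1 G) :=
  Submodule.span ℂ {h | ∃ a ∈ I, ∃ b ∈ I, h = conv a b}

lemma mem_I2 {I : Submodule ℂ (L1 G)} {a b : L1 G} (ha : a ∈ I) (hb : b ∈ I) : conv a b ∈ I2 I :=
  Submodule.subset_span ⟨a, ha, b, hb, rfl⟩

variable {I : Submodule ℂ (L1 G)} {d : ℕ} (D : IData G I d)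

namespace IData

def X (I : Submodule ℂ (L1 G)) (d : ℕ) : Submodule ℂ (EE G d) where
  carrier := {F | ∀ i j, F i j ∈ I}
  add_mem' := fun {F H} hF hH i j => I.add_mem (hF i j) (hH i j)
  zero_mem' := fun i j => I.zero_mem
  smul_mem' := fun c F hF i j => I.smul_mem c (hF i j)

lemma mem_X {F : EE G d} : F ∈ X I d ↔ ∀ i j, F i j ∈ I := Iff.rfl

include D in
lemma X_closed : IsClosed (X I d : Set (EE G d)) := by
  have h : (X I d : Set (EE G d)) = ⋂ i, ⋂ j, (pj i j) ⁻¹' (I : Set (L1 G)) := by
    ext F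
    simp only [Set.mem_iInter, Set.mem_preimage, SetLike.mem_coe]
    rfl
  rw [h]
  exact isClosed_iInter fun i => isClosed_iInter fun j => D.hIc.preimage (pj i j).continuous

lemma P_X (s : L1 G) (F : EE G d) (hF : F ∈ X I d) : D.P s F ∈ X I d := by
  intro i j
  rw [P_apply]
  exact I.sum_mem fun p _ => D.hL _ (hF p j) _

lemma Q_X (s : L1 G) (F : EE G d) (hF : F ∈ X I d) : D.Q s F ∈ X I d := by
  intro i j
  rw [Q_apply]
  exact I.sum_mem fun l _ => D.hR _ (hF i l) _

def tau : EE G d →L[ℂ] L1 G :=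
  ∑ i, ∑ j, (conv.flip (D.a j)).comp ((conv (D.a i)).comp (pj i j))

lemma tau_apply (F : EE G d) :
    D.tau F = ∑ i, ∑ j, conv (conv (D.a i) (F i j)) (D.a j) := by
  unfold tau
  rw [_root_.sum_apply]
  exact sum_congr rfl fun i _ => by
    rw [_root_.sum_apply]
    rfl

def eps : L1 G →L[ℂ] ℂ := lift (fun _ => (1 : ℂ)) 1 (fun _ => by simp)

omit [Group G] in
lemma eps_eq (s : L1 G) : eps s = pr (fun _ => (1 : ℂ)) s := by
  rw [pr_eq_lift _ 1 (fun _ => by simp)]
  rfl

lemma N_mem (s : L1 G) (p : Fin d) :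
    (∑ i, conv (D.a i) (D.mr p i s)) - eps s • D.a p ∈ I := by
  have h := mem_of_delta (T := (∑ i, (conv (D.a i)).comp (D.mr p i)) -
    (eps : L1 G →L[ℂ] ℂ).smulRight (D.a p)) I D.hIc (fun g => by
      rw [sub_apply, _root_.sum_apply, ContinuousLinearMap.smulRight_apply]
      have h1 : eps (delta g) = (1 : ℂ) := by
        unfold eps; rw [lift_delta]
      rw [h1, one_smul]
      have h2 := D.hR _ (D.ha (conv (D.a p) (delta g⁻¹))) (delta g)
      rw [map_sub, sub_apply, conv_assoc, conv_delta, inv_mul_cancel, conv_one, map_sum,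
        _root_.sum_apply] at h2
      have h3 := I.neg_mem h2
      rw [neg_sub] at h3
      convert h3 using 2
      exact sum_congr rfl fun i _ => by
        rw [ContinuousLinearMap.comp_apply, mr_delta, map_smul, map_smul, smul_apply]
        rfl) s
  rw [sub_apply, _root_.sum_apply, ContinuousLinearMap.smulRight_apply] at h
  exact h

lemma N'_mem (s : L1 G) (l : Fin d) :
    (∑ j, conv (D.ms l j s) (D.a j)) - eps s • D.a l ∈ I := by
  have h := mem_of_delta (T := (∑ j, (conv.flip (D.a j)).comp (D.ms l j)) -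
    (eps : L1 G →L[ℂ] ℂ).smulRight (D.a l)) I D.hIc (fun g => by
      rw [sub_apply, _root_.sum_apply, ContinuousLinearMap.smulRight_apply]
      have h1 : eps (delta g) = (1 : ℂ) := by
        unfold eps; rw [lift_delta]
      rw [h1, one_smul]
      have h2 := D.hL _ (D.ha (conv (delta g⁻¹) (D.a l))) (delta g)
      rw [map_sub, ← conv_assoc, conv_delta, mul_inv_cancel, one_conv, map_sum] at h2
      have h3 := I.neg_mem h2
      rw [neg_sub] at h3
      convert h3 using 2
      exact sum_congr rfl fun i _ => by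
        rw [ContinuousLinearMap.comp_apply, ms_delta, map_smul, map_smul,
          ContinuousLinearMap.flip_apply]
        rfl) s
  rw [sub_apply, _root_.sum_apply, ContinuousLinearMap.smulRight_apply] at h
  exact h

lemma tau_P (s : L1 G) (F : EE G d) (hF : F ∈ X I d) :
    D.tau (D.P s F) - eps s • D.tau F ∈ I2 I := by
  have e : D.tau (D.P s F) - eps s • D.tau F =
      ∑ p, ∑ j, conv ((∑ i, conv (D.a i) (D.mr p i s)) - eps s • D.a p)
        (conv (F p j) (D.a j)) := by
    have e1 : ∀ i j, conv (conv (D.a i) (D.P s F i j)) (D.a j) =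
        ∑ p, conv (conv (D.a i) (D.mr p i s)) (conv (F p j) (D.a j)) := by
      intro i j
      rw [P_apply, map_sum, map_sum, _root_.sum_apply]
      exact sum_congr rfl fun p _ => by simp only [conv_assoc]
    have e2 : ∀ p j, conv ((∑ i, conv (D.a i) (D.mr p i s)) - eps s • D.a p)
        (conv (F p j) (D.a j)) = (∑ i, conv (conv (D.a i) (D.mr p i s)) (conv (F p j) (D.a j))) -
        eps s • conv (conv (D.a p) (F p j)) (D.a j) := by
      intro p j
      rw [map_sub, sub_apply, map_sum, _root_.sum_apply, map_smul, smul_apply, ← conv_assoc (D.a p)]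
    have hA : D.tau (D.P s F) = ∑ p, ∑ j, ∑ i,
        conv (conv (D.a i) (D.mr p i s)) (conv (F p j) (D.a j)) := by
      rw [tau_apply]
      refine (sum_congr rfl fun i _ => sum_congr rfl fun j _ => e1 i j).trans ?_
      refine (sum_congr rfl fun i _ => sum_comm).trans ?_
      refine sum_comm.trans ?_
      exact sum_congr rfl fun p _ => sum_comm
    have hB : eps s • D.tau F = ∑ p, ∑ j, eps s • conv (conv (D.a p) (F p j)) (D.a j) := by
      rw [tau_apply, smul_sum]
      exact sum_congr rfl fun p _ => smul_sum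
    rw [hA, hB, ← sum_sub_distrib]
    refine sum_congr rfl fun p _ => ?_
    rw [← sum_sub_distrib]
    exact sum_congr rfl fun j _ => (e2 p j).symm
  rw [e]
  exact (I2 I).sum_mem fun p _ => (I2 I).sum_mem fun j _ =>
    mem_I2 (D.N_mem s p) (D.hR _ (hF p j) _)

lemma tau_Q (s : L1 G) (F : EE G d) (hF : F ∈ X I d) :
    D.tau (D.Q s F) - eps s • D.tau F ∈ I2 I := by
  have e : D.tau (D.Q s F) - eps s • D.tau F =
      ∑ i, ∑ l, conv (conv (D.a i) (F i l))
        ((∑ j, conv (D.ms l j s) (D.a j)) - eps s • D.a l) := by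
    have e1 : ∀ i j, conv (conv (D.a i) (D.Q s F i j)) (D.a j) =
        ∑ l, conv (conv (D.a i) (F i l)) (conv (D.ms l j s) (D.a j)) := by
      intro i j
      rw [Q_apply, map_sum, map_sum, _root_.sum_apply]
      exact sum_congr rfl fun p _ => by simp only [conv_assoc]
    have e2 : ∀ i l, conv (conv (D.a i) (F i l))
        ((∑ j, conv (D.ms l j s) (D.a j)) - eps s • D.a l) =
        (∑ j, conv (conv (D.a i) (F i l)) (conv (D.ms l j s) (D.a j))) -
        eps s • conv (conv (D.a i) (F i l)) (D.a l) := by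
      intro i l
      rw [map_sub, map_sum, map_smul]
    have hA : D.tau (D.Q s F) = ∑ i, ∑ l, ∑ j,
        conv (conv (D.a i) (F i l)) (conv (D.ms l j s) (D.a j)) := by
      rw [tau_apply]
      refine (sum_congr rfl fun i _ => sum_congr rfl fun j _ => e1 i j).trans ?_
      exact sum_congr rfl fun i _ => sum_comm
    have hB : eps s • D.tau F = ∑ i, ∑ l, eps s • conv (conv (D.a i) (F i l)) (D.a l) := by
      rw [tau_apply, smul_sum]
      exact sum_congr rfl fun p _ => smul_sum
    rw [hA, hB, ← sum_sub_distrib]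
    refine sum_congr rfl fun i _ => ?_
    rw [← sum_sub_distrib]
    exact sum_congr rfl fun l _ => (e2 i l).symm
  rw [e]
  exact (I2 I).sum_mem fun i _ => (I2 I).sum_mem fun l _ =>
    mem_I2 (D.hL _ (hF i l) _) (D.N'_mem s l)

def F0 (f : L1 G) : EE G d := fun i j => (D.ψ i (delta 1) * D.ψ j (delta 1)) • f

lemma F0_mem (f : L1 G) (hf : f ∈ I) : D.F0 f ∈ X I d := fun _ _ => I.smul_mem _ hf

lemma tau_F0 (f : L1 G) (hf : f ∈ I) : D.tau (D.F0 f) - f ∈ I2 I := by
  set e := ∑ i, D.ψ i (delta 1) • D.a i with he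
  have hn : delta 1 - e ∈ I := D.ha (delta 1)
  have e1 : D.tau (D.F0 f) = conv (conv e f) e := by
    rw [tau_apply, he]
    simp only [map_sum, _root_.sum_apply, map_smul, smul_apply]
    have : ∀ i j, conv (conv (D.a i) (D.F0 f i j)) (D.a j) =
        D.ψ j (delta 1) • D.ψ i (delta 1) • conv (conv (D.a i) f) (D.a j) := by
      intro i j
      unfold F0
      rw [map_smul, map_smul, smul_apply, mul_comm, mul_smul]
    simp_rw [this]
    rw [sum_comm]
    exact sum_congr rfl fun y _ => smul_sum.symm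
  have e2 : D.tau (D.F0 f) - f = (conv (delta 1 - e) (conv f (delta 1 - e)) -
      conv (delta 1 - e) f) - conv f (delta 1 - e) := by
    rw [e1]
    simp only [map_sub, sub_apply, one_conv, conv_one, conv_assoc]
    abel
  rw [e2]
  exact (I2 I).sub_mem ((I2 I).sub_mem (mem_I2 hn (D.hR _ hf _)) (mem_I2 hn hf)) (mem_I2 hf hn)

end IData

end Pool.Agent.W665.IDM
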